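import Pool.Agent.W_4481e3_h66.Lyap
import Pool.Agent.W_4481e3_h6.Fin

/-!
Near the parabolic corner `ε = 0`, `w = 0` an alive one-sided family over the word `(0001)` cannot
stay: infinitely often, at the phase `4/15`, the centre is at distance more than `1/20` from `0`.
-/

namespace Pool.Agent.W_4481e3_h66

open Real Filter Topology Pool.Agent.W_4481e3_h6

lemma cb_zero (k : ℕ) : cb k 0 = Real.cos (2 ^ k * (2 * π / 15)) := by
  unfold cb; congr 1; ring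

lemma cb_period (k : ℕ) : cb (k + 4) 0 = cb k 0 := by
  rw [cb_zero, cb_zero]
  have h : (2:ℝ) ^ (k + 4) * (2 * π / 15) = 2 ^ k * (2 * π / 15) + ((2 ^ k : ℕ) : ℝ) * (2 * π) := by
    push_cast; ring
  rw [h, Real.cos_add_nat_mul_two_pi]

lemma cb_mod (m r : ℕ) : cb (4 * m + r) 0 = cb r 0 := by
  induction m with
  | zero => simp
  | succ m ih =>
    have : 4 * (m + 1) + r = (4 * m + r) + 4 := by ring
    rw [this, cb_period, ih]

lemma cb0 : cb 0 0 = Real.cos (2 * π / 15) := by rw [cb_zero]; congr 1; ring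
lemma cb1 : cb 1 0 = Real.cos (4 * π / 15) := by rw [cb_zero]; congr 1; ring
lemma cb2 : cb 2 0 = Real.cos (8 * π / 15) := by rw [cb_zero]; congr 1; ring
lemma cb3 : cb 3 0 = Real.cos (16 * π / 15) := by rw [cb_zero]; congr 1; ring

/-- the four cosines from phase `4/15` on -/
lemma cb_phase2 (m : ℕ) : |cb (4 * m + 2) 0| ≤ 1047 / 10000 ∧ |cb (4 * m + 3) 0| ≤ 9784 / 10000 ∧
    |cb (4 * m + 4) 0| ≤ 9137 / 10000 ∧ |cb (4 * m + 5) 0| ≤ 6695 / 10000 ∧
    cb (4 * m + 2) 0 + cb (4 * m + 3) 0 + cb (4 * m + 4) 0 + cb (4 * m + 5) 0 = 1 / 2 := by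
  have e2 : cb (4 * m + 2) 0 = Real.cos (8 * π / 15) := by rw [cb_mod, cb2]
  have e3 : cb (4 * m + 3) 0 = Real.cos (16 * π / 15) := by rw [cb_mod, cb3]
  have e4 : cb (4 * m + 4) 0 = Real.cos (2 * π / 15) := by
    have : 4 * m + 4 = 4 * (m + 1) + 0 := by ring
    rw [this, cb_mod, cb0]
  have e5 : cb (4 * m + 5) 0 = Real.cos (4 * π / 15) := by
    have : 4 * m + 5 = 4 * (m + 1) + 1 := by ring
    rw [this, cb_mod, cb1]
  rw [e2, e3, e4, e5]
  have b0 := c0_bd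
  have b1 := c1_bd
  have b2 := c2_bd
  have b3 := c3_bd
  refine ⟨abs_le.mpr ⟨?_, ?_⟩, abs_le.mpr ⟨?_, ?_⟩, abs_le.mpr ⟨?_, ?_⟩, abs_le.mpr ⟨?_, ?_⟩, ?_⟩
  all_goals first | linarith [b0.1, b0.2, b1.1, b1.2, b2.1, b2.2, b3.1, b3.2] | skip
  linarith [c_sum]

/-- **Selection lemma (sequences).** Near the corner a centre orbit converges to `ε` or is
eventually equal to `-ε`. -/
theorem seq_corner {ε : ℂ} (hε0 : ε ≠ 0) (hε : ‖ε‖ ≤ 1 / 32) (hsec : |ε.im| ≤ ε.re) {w : ℕ → ℂ}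
    (hw : ∀ k, w (k + 1) = w k + (cb k 0 : ℂ) * (ε ^ 2 - w k ^ 2)) {m0 : ℕ}
    (hb : ∀ m ≥ m0, ‖w (4 * m + 2)‖ ≤ 1 / 20) :
    (∀ m ≥ m0, w (4 * m + 2) = -ε) ∨
      Tendsto (fun m => w (4 * m + 2)) atTop (𝓝 ε) := by
  have hr : 0 < ‖ε‖ := norm_pos_iff.mpr hε0
  set q : ℝ := Real.exp (-‖ε‖ / 8) with hq
  have hq0 : 0 < q := Real.exp_pos _
  have hq1 : q < 1 := by
    rw [hq, Real.exp_lt_one_iff]; linarith
  have step : ∀ m ≥ m0, ‖w (4 * (m + 1) + 2) - ε‖ * ‖w (4 * m + 2) + ε‖ ≤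
      q * (‖w (4 * m + 2) - ε‖ * ‖w (4 * (m + 1) + 2) + ε‖) := by
    intro m hm
    obtain ⟨h0, h1, h2, h3, hs⟩ := cb_phase2 m
    have e : 4 * (m + 1) + 2 = 4 * m + 6 := by ring
    rw [e]
    exact period h0 h1 h2 h3 hs hε hsec (hb m hm) (hw (4 * m + 2)) (hw (4 * m + 3))
      (hw (4 * m + 4)) (hw (4 * m + 5))
  by_cases hz : w (4 * m0 + 2) = -ε
  · left
    intro m hm
    induction m, hm using Nat.le_induction with
    | base => exact hz
    | succ m hm ih =>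
      have s : ∀ k, w k = -ε → w (k + 1) = -ε := by
        intro k hk; rw [hw k, hk]; ring
      have e : 4 * (m + 1) + 2 = 4 * m + 2 + 1 + 1 + 1 + 1 := by ring
      rw [e]
      exact s _ (s _ (s _ (s _ ih)))
  · right
    have hY0 : 0 < ‖w (4 * m0 + 2) + ε‖ := by
      rw [norm_pos_iff]; intro h; exact hz (by linear_combination h)
    -- the ratio decreases geometrically
    have key : ∀ n, ‖w (4 * (m0 + n) + 2) - ε‖ * ‖w (4 * m0 + 2) + ε‖ ≤
        q ^ n * (‖w (4 * m0 + 2) - ε‖ * ‖w (4 * (m0 + n) + 2) + ε‖) := by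
      intro n
      induction n with
      | zero => simp
      | succ n ih =>
        have s := step (m0 + n) (by omega)
        have e : m0 + (n + 1) = m0 + n + 1 := by ring
        rw [e]
        set X1 := ‖w (4 * (m0 + n + 1) + 2) - ε‖
        set Y1 := ‖w (4 * (m0 + n + 1) + 2) + ε‖
        set Xn := ‖w (4 * (m0 + n) + 2) - ε‖
        set Yn := ‖w (4 * (m0 + n) + 2) + ε‖ with hYn
        set X0 := ‖w (4 * m0 + 2) - ε‖
        set Y0 := ‖w (4 * m0 + 2) + ε‖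
        have hX1 : 0 ≤ X1 := norm_nonneg _
        have hY1 : 0 ≤ Y1 := norm_nonneg _
        have hXn : 0 ≤ Xn := norm_nonneg _
        have hX0 : 0 ≤ X0 := norm_nonneg _
        have hqn : 0 < q ^ n := pow_pos hq0 n
        have hYn0 : 0 ≤ Yn := norm_nonneg _
        rcases hYn0.eq_or_lt with h0 | h0
        · -- impossible: then X n = 0 as well
          exfalso
          rw [← h0] at ih
          have h1 : Xn * Y0 ≤ 0 := by simpa using ih
          have h2 : Xn = 0 := by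
            rcases hXn.eq_or_lt with h | h
            · exact h.symm
            · nlinarith
          have h3 : w (4 * (m0 + n) + 2) - ε = 0 := norm_eq_zero.mp h2
          have h4 : w (4 * (m0 + n) + 2) + ε = 0 := norm_eq_zero.mp h0.symm
          apply hε0
          have : (2:ℂ) * ε = 0 := by linear_combination h4 - h3
          simpa using this
        · have h5 : X1 * Y0 * Yn ≤ q ^ (n + 1) * (X0 * Y1) * Yn := by
            calc X1 * Y0 * Yn = (X1 * Yn) * Y0 := by ring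
              _ ≤ (q * (Xn * Y1)) * Y0 := mul_le_mul_of_nonneg_right s hY0.le
              _ = q * Y1 * (Xn * Y0) := by ring
              _ ≤ q * Y1 * (q ^ n * (X0 * Yn)) :=
                  mul_le_mul_of_nonneg_left ih (mul_nonneg hq0.le hY1)
              _ = q ^ (n + 1) * (X0 * Y1) * Yn := by rw [pow_succ]; ring
          exact le_of_mul_le_mul_right h5 h0
    -- conclusion
    have hbd : ∀ n, ‖w (4 * (m0 + n) + 2) + ε‖ ≤ 1 := by
      intro n
      refine (norm_add_le _ _).trans ?_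
      linarith [hb (m0 + n) (by omega)]
    have hX : ∀ n, ‖w (4 * (m0 + n) + 2) - ε‖ ≤
        q ^ n * (‖w (4 * m0 + 2) - ε‖ / ‖w (4 * m0 + 2) + ε‖) := by
      intro n
      have h1 := key n
      have h2 : q ^ n * (‖w (4 * m0 + 2) - ε‖ * ‖w (4 * (m0 + n) + 2) + ε‖) ≤
          q ^ n * ‖w (4 * m0 + 2) - ε‖ := by
        apply mul_le_mul_of_nonneg_left _ (pow_pos hq0 n).le
        have := mul_le_mul_of_nonneg_left (hbd n) (norm_nonneg (w (4 * m0 + 2) - ε))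
        linarith
      rw [← mul_div_assoc, le_div_iff₀ hY0]
      linarith
    have hlim : Tendsto (fun n => w (4 * (m0 + n) + 2)) atTop (𝓝 ε) := by
      rw [tendsto_iff_norm_sub_tendsto_zero]
      have h3 : Tendsto (fun n : ℕ => q ^ n * (‖w (4 * m0 + 2) - ε‖ / ‖w (4 * m0 + 2) + ε‖)) atTop
          (𝓝 0) := by
        have := (tendsto_pow_atTop_nhds_zero_of_lt_one hq0.le hq1).mul_const
          (‖w (4 * m0 + 2) - ε‖ / ‖w (4 * m0 + 2) + ε‖)
        simpa using this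
      exact squeeze_zero (fun n => norm_nonneg _) hX h3
    have e : (fun n => w (4 * (m0 + n) + 2)) = (fun n => (fun m => w (4 * m + 2)) (n + m0)) := by
      funext n; simp only [add_comm m0 n]
    rw [e] at hlim
    exact (tendsto_add_atTop_iff_nat m0).mp hlim

/-- A one sided family, uniformly Lipschitz near the centre, whose centre comes arbitrarily close
to a fixed point `δ` (`δ^2 = ε^2`, small), comes uniformly close to it on a window. -/
theorem window_close {ε δ : ℂ} (hδ : δ ^ 2 = ε ^ 2) (hδn : ‖δ‖ ≤ 1 / 32) {ρ L τ : ℝ}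
    {V : ℕ → ℝ → ℂ} (hρ : 0 < ρ)
    (hrec : ∀ (k : ℕ) (t : ℝ), |t| ≤ ρ * 2 ^ k → V (k + 1) (2 * t) =
      V k t + (cb k t : ℂ) * (ε ^ 2 - V k t ^ 2))
    (hτ : 0 < τ) (hτρ : τ ≤ ρ) (hL : 0 ≤ L)
    (hlip : ∀ (k : ℕ) (s t : ℝ), |s| ≤ τ → |t| ≤ τ → ‖V k s - V k t‖ ≤ L * |s - t|)
    (hc : ∀ η > (0:ℝ), ∃ k, ‖V k 0 - δ‖ ≤ η) :
    ∀ R > (0:ℝ), ∃ k, ∀ t : ℝ, |t| ≤ τ → ‖V k t - δ‖ < R := by
  intro R hR
  set R' := min R (1 / 20) with hR'
  have hR'0 : 0 < R' := lt_min hR (by norm_num)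
  have hR'1 : R' ≤ R := min_le_left _ _
  have hR'2 : R' ≤ 1 / 20 := min_le_right _ _
  -- choose n
  obtain ⟨n, hn⟩ : ∃ n : ℕ, (9 / 16 : ℝ) ^ n * (L * τ) < R' / 4 := by
    have h1 : Tendsto (fun n : ℕ => (9 / 16 : ℝ) ^ n * (L * τ)) atTop (𝓝 0) := by
      have := (tendsto_pow_atTop_nhds_zero_of_lt_one (r := (9 / 16 : ℝ)) (by norm_num)
        (by norm_num)).mul_const (L * τ)
      simpa using this
    exact ((h1.eventually (gt_mem_nhds (by positivity))).exists)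
  obtain ⟨k, hk⟩ := hc (R' / 4 / (9 / 8 : ℝ) ^ n) (by positivity)
  refine ⟨k + n, fun t ht => lt_of_lt_of_le ?_ hR'1⟩
  -- the start
  have hsmall : ∀ i ≤ n, |t / 2 ^ (n - i)| ≤ τ := by
    intro i _
    rw [abs_div, abs_of_pos (show (0:ℝ) < 2 ^ (n - i) by positivity)]
    refine (div_le_self (abs_nonneg t) (one_le_pow₀ (by norm_num))).trans ht
  set d : ℝ := ‖V k (t / 2 ^ n) - δ‖ with hd
  have hd1 : (9 / 8 : ℝ) ^ n * d ≤ R' / 2 := by
    have h1 : d ≤ ‖V k 0 - δ‖ + L * (τ / 2 ^ n) := by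
      have h2 : V k (t / 2 ^ n) - δ = (V k 0 - δ) + (V k (t / 2 ^ n) - V k 0) := by ring
      rw [hd, h2]
      refine (norm_add_le _ _).trans (add_le_add le_rfl ?_)
      have h3 := hlip k (t / 2 ^ n) 0 (by simpa using hsmall 0 (Nat.zero_le _)) (by simp [hτ.le])
      refine h3.trans (mul_le_mul_of_nonneg_left ?_ hL)
      rw [sub_zero, abs_div, abs_of_pos (show (0:ℝ) < 2 ^ n by positivity)]
      gcongr
    have h4 : (9 / 8 : ℝ) ^ n * (L * (τ / 2 ^ n)) = (9 / 16 : ℝ) ^ n * (L * τ) := by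
      have : (9 / 16 : ℝ) ^ n = (9 / 8) ^ n / 2 ^ n := by
        rw [← div_pow]; norm_num
      rw [this]; ring
    have h5 : (9 / 8 : ℝ) ^ n * ‖V k 0 - δ‖ ≤ R' / 4 := by
      have := mul_le_mul_of_nonneg_left hk (show (0:ℝ) ≤ (9 / 8 : ℝ) ^ n by positivity)
      rwa [mul_div_cancel₀ _ (by positivity)] at this
    have h6 := mul_le_mul_of_nonneg_left h1 (show (0:ℝ) ≤ (9 / 8 : ℝ) ^ n by positivity)
    rw [mul_add] at h6
    linarith
  have hd0 : 0 ≤ d := norm_nonneg _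
  -- induction
  have key : ∀ i ≤ n, ‖V (k + i) (t / 2 ^ (n - i)) - δ‖ ≤ (9 / 8 : ℝ) ^ i * d := by
    intro i
    induction i with
    | zero => intro _; simp [hd]
    | succ i ih =>
      intro hi
      have h1 := ih (by omega)
      have hpow : (2:ℝ) ^ (n - i) = 2 * 2 ^ (n - (i + 1)) := by
        have : n - i = (n - (i + 1)) + 1 := by omega
        rw [this, pow_succ]; ring
      have h2 : t / 2 ^ (n - (i + 1)) = 2 * (t / 2 ^ (n - i)) := by
        rw [hpow]; field_simp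
      have h3 : |t / 2 ^ (n - i)| ≤ ρ * 2 ^ (k + i) := by
        refine (hsmall i (by omega)).trans (hτρ.trans ?_)
        exact le_mul_of_one_le_right hρ.le (one_le_pow₀ (by norm_num))
      have h4 := hrec (k + i) (t / 2 ^ (n - i)) h3
      rw [h2, show k + (i + 1) = k + i + 1 by ring, h4]
      set v := V (k + i) (t / 2 ^ (n - i)) with hv
      set c := cb (k + i) (t / 2 ^ (n - i)) with hc'
      have h5 : v + (c : ℂ) * (ε ^ 2 - v ^ 2) - δ = (v - δ) * (1 - c * (v - δ + 2 * δ)) := by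
        rw [← hδ]; ring
      rw [h5, norm_mul]
      have hsz : ‖v - δ‖ ≤ 1 / 40 := by
        refine h1.trans ?_
        have h6 : (9 / 8 : ℝ) ^ i ≤ (9 / 8) ^ n := pow_le_pow_right₀ (by norm_num) (by omega)
        have h7 := mul_le_mul_of_nonneg_right h6 hd0
        linarith
      have h8 : ‖1 - (c:ℂ) * (v - δ + 2 * δ)‖ ≤ 9 / 8 := by
        refine (norm_sub_le _ _).trans ?_
        rw [norm_one, norm_mul, Complex.norm_real, Real.norm_eq_abs]
        have h9 : |c| ≤ 1 := cb_abs _ _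
        have h10 : ‖v - δ + 2 * δ‖ ≤ 1 / 40 + 1 / 16 := by
          refine (norm_add_le _ _).trans (add_le_add hsz ?_)
          rw [norm_mul, Complex.norm_two]; linarith
        have h11 := mul_le_mul h9 h10 (norm_nonneg _) zero_le_one
        linarith
      calc ‖v - δ‖ * ‖1 - (c:ℂ) * (v - δ + 2 * δ)‖ ≤ ((9 / 8 : ℝ) ^ i * d) * (9 / 8) :=
            mul_le_mul h1 h8 (norm_nonneg _) (by positivity)
        _ = (9 / 8 : ℝ) ^ (i + 1) * d := by rw [pow_succ]; ring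
  have hfin := key n le_rfl
  simp only [Nat.sub_self, pow_zero, div_one] at hfin
  linarith

/-- **No stay in the corner.** -/
theorem corner {ε : ℂ} (hε0 : ε ≠ 0) (hε : ‖ε‖ ≤ 1 / 32) (hsec : |ε.im| ≤ ε.re) {ρ L τ : ℝ}
    {V : ℕ → ℝ → ℂ} (hρ : 0 < ρ)
    (hrec : ∀ (k : ℕ) (t : ℝ), |t| ≤ ρ * 2 ^ k → V (k + 1) (2 * t) =
      V k t + (cb k t : ℂ) * (ε ^ 2 - V k t ^ 2))
    (hτ : 0 < τ) (hτρ : τ ≤ ρ) (hL : 0 ≤ L)
    (hlip : ∀ (k : ℕ) (s t : ℝ), |s| ≤ τ → |t| ≤ τ → ‖V k s - V k t‖ ≤ L * |s - t|)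
    (hnear : ∀ ℓ > (0:ℝ), ∃ R > (0:ℝ), ∀ (k : ℕ) (a : ℝ), -(ρ * 2 ^ k) ≤ a → a + ℓ ≤ ρ * 2 ^ k →
      (∃ t ∈ Set.Icc a (a + ℓ), R ≤ ‖V k t - ε‖) ∧ (∃ t ∈ Set.Icc a (a + ℓ), R ≤ ‖V k t + ε‖))
    (m0 : ℕ) : ∃ m ≥ m0, 1 / 20 < ‖V (4 * m + 2) 0‖ := by
  by_contra hcon
  push Not at hcon
  have hw : ∀ k, V (k + 1) 0 = V k 0 + (cb k 0 : ℂ) * (ε ^ 2 - V k 0 ^ 2) := by
    intro k
    have := hrec k 0 (by rw [abs_zero]; positivity)
    rwa [mul_zero] at this
  obtain ⟨R, hR, hRn⟩ := hnear τ hτ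
  have fin : ∀ k : ℕ, (∃ t, |t| ≤ τ ∧ R ≤ ‖V k t - ε‖) ∧ (∃ t, |t| ≤ τ ∧ R ≤ ‖V k t + ε‖) := by
    intro k
    have h2 : ρ ≤ ρ * 2 ^ k := le_mul_of_one_le_right hρ.le (one_le_pow₀ (by norm_num))
    obtain ⟨⟨t, ht, h⟩, ⟨t', ht', h'⟩⟩ := hRn k 0 (by linarith) (by linarith)
    rw [zero_add] at ht ht'
    exact ⟨⟨t, by rw [abs_of_nonneg ht.1]; exact ht.2, h⟩,
      ⟨t', by rw [abs_of_nonneg ht'.1]; exact ht'.2, h'⟩⟩
  rcases seq_corner (w := fun k => V k 0) hε0 hε hsec hw hcon with h | h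
  · -- the constant leaf
    have hc : ∀ η > (0:ℝ), ∃ k, ‖V k 0 - (-ε)‖ ≤ η := by
      intro η hη
      refine ⟨4 * m0 + 2, ?_⟩
      have := h m0 le_rfl
      rw [this, sub_self, norm_zero]; exact hη.le
    obtain ⟨k, hk⟩ := window_close (δ := -ε) (by ring) (by rwa [norm_neg]) hρ hrec hτ hτρ hL hlip
      hc R hR
    obtain ⟨t, ht, h'⟩ := (fin k).2
    have := hk t ht
    rw [sub_neg_eq_add] at this
    linarith
  · have hc : ∀ η > (0:ℝ), ∃ k, ‖V k 0 - ε‖ ≤ η := by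
      intro η hη
      have h2 := (Metric.tendsto_atTop.mp h) η hη
      obtain ⟨N, hN⟩ := h2
      refine ⟨4 * N + 2, ?_⟩
      have := hN N le_rfl
      rw [dist_eq_norm] at this
      exact this.le
    obtain ⟨k, hk⟩ := window_close (δ := ε) rfl hε hρ hrec hτ hτρ hL hlip hc R hR
    obtain ⟨t, ht, h'⟩ := (fin k).1
    linarith [hk t ht]

end Pool.Agent.W_4481e3_h66
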