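import Pool.Agent.W_4481e3_h66.TabF

/-!
The orbit of the centre as a test path.
-/

open Filter Topology

namespace Pool.Agent.W_4481e3_h66.Ev

open Complex
open Pool.Agent.W_4481e3_q42 (Alive Adm Dead orb)
open Pool.Agent.W_4481e3_q12 (Good zz zz_add Good.al cph_mod)
open Pool.Agent.W_4481e3_q12.Ev (cph cph_add TT chk0 chk1 chk2 chk3')

lemma good_of_alive {ε : ℂ} {p : ℕ} {w : ℂ} (hp4 : p < 4) (h : Alive ε (2 ^ p / 15) w) :
    Good (ε ^ 2) p w := by
  have horb : ∀ j, orb (ε ^ 2) (2 ^ p / 15) w j = zz (ε ^ 2) p j w := by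
    intro j
    induction j with
    | zero => rfl
    | succ j ih =>
      have h1 : zz (ε ^ 2) p (j + 1) w = zz (ε ^ 2) p j w +
          (cph (p + j) : ℂ) * (ε ^ 2 - zz (ε ^ 2) p j w ^ 2) := by
        rw [zz_add]; rfl
      rw [h1, ← ih]
      show orb (ε ^ 2) (2 ^ p / 15) w j +
        (Real.cos (2 * Real.pi * (2 ^ j * (2 ^ p / 15))) : ℂ) * _ = _
      congr 2
      unfold cph
      congr 2
      rw [pow_add]
      ring
  refine ⟨fun j => ?_, fun j hj => ?_⟩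
  · rw [← horb]; exact h.bd j
  · rw [← horb]
    have hx : (2:ℝ) ^ j * (2 ^ p / 15) = 2 ^ (p + j) / 15 := by rw [pow_add]; ring
    obtain ⟨n, hn⟩ : ∃ n : ℤ, (2:ℤ) ^ (p + j) = 15 * n + 4 := by
      have h1 : (2:ℤ) ^ (p + j) ≡ 4 [ZMOD 15] := by
        obtain ⟨m, hm⟩ : ∃ m, p + j = 4 * m + 2 := ⟨(p + j) / 4, by omega⟩
        rw [hm, pow_add, pow_mul]
        have h2 : ((2:ℤ) ^ 4) ^ m ≡ 1 ^ m [ZMOD 15] := Int.ModEq.pow m (by decide)
        rw [one_pow] at h2
        have h3 := h2.mul_right (2 ^ 2)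
        norm_num at h3 ⊢
        exact h3
      obtain ⟨k, hk⟩ := h1.symm.dvd
      exact ⟨k, by linarith⟩
    have hn' : (2:ℝ) ^ (p + j) = 15 * n + 4 := by exact_mod_cast hn
    have h4 := h.half j n (by rw [hx, hn']; linarith) (by rw [hx, hn']; linarith)
    rw [hx] at h4
    exact h4

lemma thr_cen {ε : ℂ} (hp : Pr ε) {p : ℕ} (hp4 : p < 4) {TH : ℕ} (hT : TT p = TH) :
    Thr ε TH (2 ^ p / 15) := by
  intro Z hZ hA
  have h1 := ((good_of_alive hp4 hA).al hp.q4).bd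
  rw [norm_mul, hT] at h1
  have h16 : ‖(16777216 : ℂ)‖ = 16777216 := by simp
  rw [h16] at h1
  linarith

lemma thr_add {ε : ℂ} {TH : ℕ} {x : ℝ} (h : Thr ε TH x) (n : ℤ) : Thr ε TH (x + n) := by
  intro Z hZ hA
  have := hA.add_int (-n)
  push_cast at this
  rw [add_neg_cancel_right] at this
  exact h Z hZ this

lemma cos_base (x : ℝ) (n : ℤ) : Real.cos (2 * Real.pi * (x + n)) = Real.cos (2 * Real.pi * x) := by
  have : 2 * Real.pi * (x + n) = 2 * Real.pi * x + n * (2 * Real.pi) := by ring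
  rw [this, Real.cos_add_int_mul_two_pi]

/-- a path may be moved by an integer -/
lemma PV.add {ε : ℂ} (p : Pth) : ∀ (x : ℝ) (n : ℤ), PV ε p x → PV ε p (x + n) := by
  induction p with
  | fin K =>
    rintro x n ⟨h1, h2⟩
    refine ⟨fun hK => ?_, fun hK => ?_⟩
    · obtain ⟨m, hm⟩ := h1 hK
      exact ⟨m + n, by rw [hm]; push_cast; ring⟩
    · obtain ⟨q, hq, hd⟩ := h2 hK
      exact ⟨q + 3 * n, by push_cast; linarith, by omega⟩
  | pos C TH p ih =>
    rintro x n ⟨h1, h2, h3, h4⟩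
    have := ih (2 * x) (2 * n) h4
    push_cast at this
    exact ⟨h1, by rw [cos_base]; exact h2, thr_add h3 n, by rw [mul_add]; exact this⟩
  | neg C TH p ih =>
    rintro x n ⟨h1, h2, h3, h4⟩
    have := ih (2 * x) (2 * n) h4
    push_cast at this
    exact ⟨h1, by rw [cos_base]; exact h2, thr_add h3 n, by rw [mul_add]; exact this⟩

/-- one period in front of a path -/
def per1 (p : Pth) : Pth :=
  Pth.pos 11226149 57378078 (Pth.neg 1753697 70967623 (Pth.neg 16410594 38587597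
    (Pth.pos 15326749 43956305 p)))

lemma PV.per1 {ε : ℂ} (hp : Pr ε) {p : Pth} (h : PV ε p (2 / 15)) : PV ε (per1 p) (2 / 15) := by
  have t1 := thr_cen hp (p := 1) (by norm_num) (TH := 57378078) (by norm_num [TT])
  have t2 := thr_cen hp (p := 2) (by norm_num) (TH := 70967623) (by norm_num [TT])
  have t3 := thr_cen hp (p := 3) (by norm_num) (TH := 38587597) (by norm_num [TT])
  have t0 := thr_add (thr_cen hp (p := 0) (by norm_num) (TH := 43956305) (by norm_num [TT])) 1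
  have c1 := chk1
  have c2 := chk2
  have c3 := chk3'
  have c0 := chk0
  unfold cph at c0 c1 c2 c3
  have e1 : (2:ℝ) ^ 1 / 15 = 2 / 15 := by norm_num
  have e2 : (2:ℝ) ^ 2 / 15 = 2 * (2 / 15) := by norm_num
  have e3 : (2:ℝ) ^ 3 / 15 = 2 * (2 * (2 / 15)) := by norm_num
  have e0 : (2:ℝ) ^ 0 / 15 + ((1:ℤ):ℝ) = 2 * (2 * (2 * (2 / 15))) := by norm_num
  rw [e1] at t1 c1
  rw [e2] at t2 c2
  rw [e3] at t3 c3
  rw [e0] at t0
  have e4 : Real.cos (2 * Real.pi * (2 * (2 * (2 * (2 / 15))))) =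
      Real.cos (2 * Real.pi * (2 ^ 0 / 15)) := by
    rw [← e0, cos_base]
  rw [← e4] at c0
  rw [abs_le] at c0 c1 c2 c3
  refine ⟨by norm_num, ?_, t1, by norm_num, ?_, t2, by norm_num, ?_, t3, by norm_num, ?_, t0, ?_⟩
  · rw [abs_le]; push_cast; constructor <;> linarith [c1.1, c1.2]
  · rw [abs_le]; push_cast; constructor <;> linarith [c2.1, c2.2]
  · rw [abs_le]; push_cast; constructor <;> linarith [c3.1, c3.2]
  · rw [abs_le]; push_cast; constructor <;> linarith [c0.1, c0.2]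
  · have := PV.add p (2 / 15) 2 h
    have e5 : (2:ℝ) / 15 + ((2:ℤ):ℝ) = 2 * (2 * (2 * (2 * (2 / 15)))) := by norm_num
    rwa [e5] at this

/-- the centre path -/
def pcen : Pth := per1 (per1 (per1 (Pth.fin 2)))

lemma pcen_valid {ε : ℂ} (hp : Pr ε) (κ τ Af : ℝ) (hτ : 0 ≤ τ) (o : ℕ) : TQ ε Af κ τ o pcen := by
  refine ⟨0, by rw [abs_zero]; exact hτ, by simp, ?_⟩
  rw [add_zero]
  exact PV.per1 hp (PV.per1 hp (PV.per1 hp ⟨fun h => absurd h (by norm_num),
    fun h => absurd h (by norm_num)⟩))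

end Pool.Agent.W_4481e3_h66.Ev
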