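import Mathlib

/-!
The four cosines of the orbit of `1/15` under doubling.
-/

namespace Pool.Agent.W_4481e3_h66

open Real

/-- `cos (2 pi / 15) + cos (8 pi / 15) = cos (pi / 5)` -/
lemma cos_add_a : Real.cos (2 * π / 15) + Real.cos (8 * π / 15) = Real.cos (π / 5) := by
  have h := Real.cos_add_cos (2 * π / 15) (8 * π / 15)
  have h1 : (2 * π / 15 + 8 * π / 15) / 2 = π / 3 := by ring
  have h2 : (2 * π / 15 - 8 * π / 15) / 2 = -(π / 5) := by ring
  rw [h, h1, h2, Real.cos_neg, Real.cos_pi_div_three]; ring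

lemma cos_mul_a : Real.cos (2 * π / 15) * Real.cos (8 * π / 15) =
    (-1 / 2 + Real.cos (2 * π / 5)) / 2 := by
  have h1 : Real.cos (2 * π / 3) = -1 / 2 := by
    have : 2 * π / 3 = 2 * (π / 3) := by ring
    rw [this, Real.cos_two_mul, Real.cos_pi_div_three]; norm_num
  have h2 : Real.cos (2 * π / 15 + 8 * π / 15) = Real.cos (2 * π / 3) := by congr 1; ring
  have h3 : Real.cos (8 * π / 15 - 2 * π / 15) = Real.cos (2 * π / 5) := by congr 1; ring
  rw [Real.cos_add] at h2
  rw [Real.cos_sub] at h3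
  rw [h1] at h2
  linarith

lemma sqrt5_lo : (2.23606 : ℝ) < Real.sqrt 5 := by
  rw [show (2.23606 : ℝ) = Real.sqrt (2.23606 ^ 2) by rw [Real.sqrt_sq]; norm_num]
  exact Real.sqrt_lt_sqrt (by norm_num) (by norm_num)

lemma sqrt5_hi : Real.sqrt 5 < (2.23607 : ℝ) := by
  rw [show (2.23607 : ℝ) = Real.sqrt (2.23607 ^ 2) by rw [Real.sqrt_sq]; norm_num]
  exact Real.sqrt_lt_sqrt (by norm_num) (by norm_num)

lemma cos_fifth : Real.cos (π / 5) = (1 + Real.sqrt 5) / 4 := Real.cos_pi_div_five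

lemma cos_two_fifth : Real.cos (2 * π / 5) = (Real.sqrt 5 - 1) / 4 := by
  have h : 2 * π / 5 = 2 * (π / 5) := by ring
  rw [h, Real.cos_two_mul, cos_fifth]
  have := Real.sq_sqrt (show (0:ℝ) ≤ 5 by norm_num)
  nlinarith

/-- the value `cos (2 pi / 15)` -/
lemma c0_bd : 0.9135 < Real.cos (2 * π / 15) ∧ Real.cos (2 * π / 15) < 0.9136 := by
  have hs := cos_add_a
  have hp := cos_mul_a
  rw [cos_fifth] at hs
  rw [cos_two_fifth] at hp
  have l := sqrt5_lo
  have u := sqrt5_hi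
  set x := Real.cos (2 * π / 15) with hx
  set y := Real.cos (8 * π / 15) with hy
  have hx0 : 0 < x := by
    apply Real.cos_pos_of_mem_Ioo
    have := Real.pi_pos
    constructor <;> linarith
  have hyx : y = (1 + Real.sqrt 5) / 4 - x := by linarith
  have hq : x * ((1 + Real.sqrt 5) / 4 - x) = (-1 / 2 + (Real.sqrt 5 - 1) / 4) / 2 := by
    rw [← hyx]; exact hp
  -- x is the positive root
  have hy0 : y < 0 := by
    by_contra hc
    have : 0 ≤ x * y := mul_nonneg hx0.le (not_lt.mp hc)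
    rw [hp] at this
    linarith
  have hxs : (1 + Real.sqrt 5) / 4 < x := by linarith
  constructor
  · by_contra hc
    have hc := not_lt.mp hc
    nlinarith
  · by_contra hc
    have hc := not_lt.mp hc
    nlinarith

lemma c2_bd : -0.1046 < Real.cos (8 * π / 15) ∧ Real.cos (8 * π / 15) < -0.1044 := by
  have hs := cos_add_a
  rw [cos_fifth] at hs
  have l := sqrt5_lo
  have u := sqrt5_hi
  have h := c0_bd
  constructor <;> linarith [h.1, h.2]

lemma c1_eq : Real.cos (4 * π / 15) = 2 * Real.cos (2 * π / 15) ^ 2 - 1 := by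
  have h : 4 * π / 15 = 2 * (2 * π / 15) := by ring
  rw [h, Real.cos_two_mul]

lemma c3_eq : Real.cos (16 * π / 15) = 2 * Real.cos (8 * π / 15) ^ 2 - 1 := by
  have h : 16 * π / 15 = 2 * (8 * π / 15) := by ring
  rw [h, Real.cos_two_mul]

lemma c1_bd : 0.6689 < Real.cos (4 * π / 15) ∧ Real.cos (4 * π / 15) < 0.6694 := by
  have h := c0_bd
  rw [c1_eq]
  constructor <;> nlinarith [h.1, h.2]

lemma c3_bd : -0.9783 < Real.cos (16 * π / 15) ∧ Real.cos (16 * π / 15) < -0.9781 := by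
  have h := c2_bd
  rw [c3_eq]
  constructor <;> nlinarith [h.1, h.2]

/-- the sum of the four cosines is exactly one half -/
lemma c_sum : Real.cos (2 * π / 15) + Real.cos (4 * π / 15) + Real.cos (8 * π / 15) +
    Real.cos (16 * π / 15) = 1 / 2 := by
  have hs := cos_add_a
  have hp := cos_mul_a
  rw [cos_fifth] at hs
  rw [cos_two_fifth] at hp
  rw [c1_eq, c3_eq]
  have h5 := Real.sq_sqrt (show (0:ℝ) ≤ 5 by norm_num)
  set x := Real.cos (2 * π / 15)
  set y := Real.cos (8 * π / 15)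
  have h1 : x ^ 2 + y ^ 2 = ((1 + Real.sqrt 5) / 4) ^ 2 - 2 * ((-1 / 2 + (Real.sqrt 5 - 1) / 4) / 2) := by
    rw [← hs, ← hp]; ring
  nlinarith

end Pool.Agent.W_4481e3_h66
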