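import Pool.Agent.W_4481e3_q42.EvK

/-!
Flat regime of the kill certificate: evaluator of the test paths and of the tree.

A cell is a square of the parameter `e` and a square of the point `w` over the base `2/15`.  A leaf
names a test path, the number of steps along it and a closer.
-/

namespace Pool.Agent.W_4481e3_h66.Ev

open Pool.Agent.W_MP_4481e3_an.Ev (gd nrm1)
open Pool.Agent.W_4481e3_q12.Ev (ds nrm esc esc1 out)
open Pool.Agent.W_4481e3_q42.Ev (nrq sep sen)

/-- a test path: absolute values of the cosines with signs, thresholds, and the kind of the end -/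
inductive Pth
  | fin (K : ℕ) : Pth
  | pos (C TH : ℕ) (p : Pth) : Pth
  | neg (C TH : ℕ) (p : Pth) : Pth

/-- table of the tests: offset of the radius and path -/
inductive Tab
  | nil : Tab
  | cons (o : ℕ) (p : Pth) (t : Tab) : Tab

/-- total radius of a form -/
def tot (t r F G : ℕ) : ℕ :=
  Nat.add (Nat.add (Nat.div (Nat.mul (nrq (ds F 268435456) (ds G 268435456)) t) 65536) 1) r

noncomputable def thr (TH t A B r F G : ℕ) : Bool := esc TH A B (tot t r F G)

/-- escape over the base `0`, distance from `1/2` -/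
noncomputable def es0 (t A B r F G : ℕ) : Bool :=
  esc1 (ds A 545259520) (ds B 536870912) (Nat.add 20641500 (tot t r F G))

/-- escape over the base `1/3`, distance from `-1` -/
noncomputable def es3 (t A B r F G : ℕ) : Bool :=
  esc1 (ds A 520093696) (ds B 536870912) (Nat.add 40506000 (tot t r F G))

/-- a path; `n` counts the steps, the rest is for the end -/
noncomputable def chn (X Y t te : ℕ) (kf : ℕ → ℕ → ℕ → ℕ → ℕ → ℕ → ℕ → Bool) (p : Pth) :
    ℕ → ℕ → ℕ → ℕ → ℕ → ℕ → Bool :=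
  Pth.rec (motive := fun _ => ℕ → ℕ → ℕ → ℕ → ℕ → ℕ → Bool) (fun K => kf K)
    (fun C TH _ ih n A B r F G => Nat.rec (thr TH t A B r F G)
      (fun n _ => sep C X Y t te A B r F G (ih n)) n)
    (fun C TH _ ih n A B r F G => Nat.rec (thr TH t A B r F G)
      (fun n _ => sen C X Y t te A B r F G (ih n)) n) p

/-- frozen steps over the base `0` -/
noncomputable def fz0 (X Y t te : ℕ) (k : ℕ → ℕ → ℕ → ℕ → ℕ → Bool) (n : ℕ) :
    ℕ → ℕ → ℕ → ℕ → ℕ → Bool :=
  Nat.rec k (fun _ ih A B r F G => sep 16777216 X Y t te A B r F G ih) n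

/-- frozen steps over the base `1/3` -/
noncomputable def fz3 (X Y t te : ℕ) (k : ℕ → ℕ → ℕ → ℕ → ℕ → Bool) (n : ℕ) :
    ℕ → ℕ → ℕ → ℕ → ℕ → Bool :=
  Nat.rec k (fun _ ih A B r F G => sen 8388608 X Y t te A B r F G ih) n

/-- traps, given by `T0`, `T3` -/
noncomputable def en0 (T0 : ℕ → ℕ → ℕ → Bool) (t b A B r F G : ℕ) : Bool :=
  Nat.rec (es0 t A B r F G) (fun _ _ => T0 A B (tot t r F G)) b

noncomputable def en3 (T3 : ℕ → ℕ → ℕ → Bool) (t b A B r F G : ℕ) : Bool :=
  Nat.rec (es3 t A B r F G) (fun _ _ => T3 A B (tot t r F G)) b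

noncomputable def kfin (T0 T3 : ℕ → ℕ → ℕ → Bool) (X Y t te K n : ℕ) :
    ℕ → ℕ → ℕ → ℕ → ℕ → Bool :=
  Nat.rec (fz0 X Y t te (en0 T0 t (Nat.mod n 2)) (Nat.div n 2))
    (fun K _ => Nat.rec (fz3 X Y t te (en3 T3 t (Nat.mod n 2)) (Nat.div n 2))
      (fun _ _ _ _ _ _ _ => false) K) K

/-- choice of the test -/
noncomputable def look (k : ℕ → Pth → Bool) (tb : Tab) : ℕ → Bool :=
  Tab.rec (motive := fun _ => ℕ → Bool) (fun _ => false)
    (fun o p _ ih T => Nat.rec (k o p) (fun T _ => ih T) T) tb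

/-- test leaf with the test `T` and `n` steps -/
noncomputable def tst2 (tb : Tab) (T0 T3 : ℕ → ℕ → ℕ → Bool) (T n X Y t te A B r : ℕ) : Bool :=
  look (fun o p => chn X Y t te (kfin T0 T3 X Y t te) p n A B (Nat.add r o) 268435456 268435456) tb T

end Pool.Agent.W_4481e3_h66.Ev
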