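import Pool.Agent.W_4481e3_h66.RootF
import Pool.Agent.W_4481e3_h41.FlatHlo
import Pool.Agent.W_4481e3_q46.Frame

/-!
The flat regime is impossible.
-/

open Filter Topology

namespace Pool.Agent.W_4481e3_h66

open Complex
open Pool.Agent.W_4481e3_h66.Ev (Pr Cl Cov root good_of_alive)
open Pool.Agent.W_4481e3_q12 (Good.al)
open Pool.Agent.W_4481e3_q12.Ev (Rg BxE BxW TT)
open Pool.Agent.W_4481e3_q42 (Alive Adm TestDead)
open Pool.Agent.W_4481e3_q46 (Par LoStmt Lam)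
open Pool.Agent.W_4481e3_q59 (PerQ)

lemma par_facts {ε : ℂ} (h : Par ε) : 0 < (ε ^ 2).re ∧ 0 ≤ (ε ^ 2).im ∧ ‖ε ^ 2‖ < 1 / 4 ∧
    47 * ‖ε ^ 2‖ ^ 2 < 32 * (ε ^ 2).re := by
  obtain ⟨h1, h2, h3, h4, h5, h6, h7⟩ := h
  refine ⟨h7, ?_, h6, ?_⟩
  · have e1 : (ε ^ 2).im = 2 * ε.re * ε.im := by rw [pow_two, Complex.mul_im]; ring
    rw [e1]
    exact mul_nonneg (by linarith) h2
  · have h8 : ‖ε ^ 2‖ ^ 4 ≤ ‖ε ^ 2‖ ^ 2 / 16 := by
      have h9 := norm_nonneg (ε ^ 2)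
      generalize ‖ε ^ 2‖ = y at h6 h9 ⊢
      have h10 : y ^ 2 ≤ 1 / 16 := by nlinarith
      nlinarith [sq_nonneg y]
    linarith

lemma pr_of_par {ε : ℂ} (h : Par ε) : Pr ε := by
  obtain ⟨h1, h2, h3, h4⟩ := par_facts h
  have hn : ‖ε ^ 2‖ ^ 2 = (ε ^ 2).re ^ 2 + (ε ^ 2).im ^ 2 := by
    rw [Complex.sq_norm, Complex.normSq_apply]; ring
  have h5 : ‖ε ^ 2‖ ^ 2 ≤ 1 / 16 := by
    have h9 := norm_nonneg (ε ^ 2)
    generalize ‖ε ^ 2‖ = y at h3 h9 ⊢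
    nlinarith
  refine ⟨h.adm, h3.le, ?_, ?_⟩
  · have e1 : ‖1 / 4 - ε ^ 2‖ ^ 2 = 1 / 16 - (ε ^ 2).re / 2 + ‖ε ^ 2‖ ^ 2 := by
      rw [hn, Complex.sq_norm, Complex.normSq_apply]
      have a1 : (1 / 4 - ε ^ 2 : ℂ).re = 1 / 4 - (ε ^ 2).re := by
        rw [Complex.sub_re]; norm_num
      have a2 : (1 / 4 - ε ^ 2 : ℂ).im = -(ε ^ 2).im := by
        rw [Complex.sub_im]; norm_num
      rw [a1, a2]; ring
    have e2 : ‖1 / 4 - ε ^ 2‖ ^ 2 ≤ (2813 / 10000) ^ 2 := by rw [e1]; linarith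
    exact (abs_le_of_sq_le_sq' e2 (by norm_num)).2
  · have e1 : ‖1 / 4 - ε ^ 2 / 4‖ ^ 2 = (1 - 2 * (ε ^ 2).re + ‖ε ^ 2‖ ^ 2) / 16 := by
      rw [hn, Complex.sq_norm, Complex.normSq_apply]
      have a0 : (1 / 4 - ε ^ 2 / 4 : ℂ) = ((1 / 4 : ℝ) : ℂ) * (1 - ε ^ 2) := by
        push_cast; ring
      have a1 : (1 / 4 - ε ^ 2 / 4 : ℂ).re = (1 - (ε ^ 2).re) / 4 := by
        rw [a0, Complex.re_ofReal_mul, Complex.sub_re, Complex.one_re]; ring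
      have a2 : (1 / 4 - ε ^ 2 / 4 : ℂ).im = -(ε ^ 2).im / 4 := by
        rw [a0, Complex.im_ofReal_mul, Complex.sub_im, Complex.one_im]; ring
      rw [a1, a2]; ring
    have e2 : ‖1 / 4 - ε ^ 2 / 4‖ ^ 2 ≤ (1 / 4) ^ 2 := by
      rw [e1]
      nlinarith [sq_nonneg ‖ε ^ 2‖]
    exact (abs_le_of_sq_le_sq' e2 (by norm_num)).2

/-- **Kill certificate of the flat regime.** -/
theorem flat_kill {ε : ℂ} (h : Par ε) {w a : ℂ} (hw : Alive ε (2 / 15) w)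
    (hc : ‖ε ^ 2‖ ≤ 1 / 1024 → 1 / 21 < ‖w‖) (ha : ‖a‖ ≤ 202 / 100) :
    TestDead ε 1 w a 562 (1 / 64) := by
  have hp := pr_of_par h
  obtain ⟨h1, h2, h3, h4⟩ := par_facts h
  have h16 : ‖(16777216 : ℂ)‖ = 16777216 := by simp
  have hre : ∀ z : ℂ, (16777216 * z).re = 16777216 * z.re := fun z => by
    rw [show (16777216 : ℂ) = ((16777216:ℝ) : ℂ) by norm_num, Complex.re_ofReal_mul]
  have him : ∀ z : ℂ, (16777216 * z).im = 16777216 * z.im := fun z => by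
    rw [show (16777216 : ℂ) = ((16777216:ℝ) : ℂ) by norm_num, Complex.im_ofReal_mul]
  have hr1 := Complex.re_le_norm (ε ^ 2)
  have hi1 := Complex.im_le_norm (ε ^ 2)
  have hR : Rg (16777216 * ε ^ 2) := by
    refine ⟨?_, ?_⟩
    · rw [norm_mul, h16]; linarith
    · rw [norm_mul, h16, hre]; nlinarith
  have hE : BxE 2097152 2097152 2097152 (16777216 * ε ^ 2) := by
    refine ⟨?_, ?_⟩
    · rw [hre, abs_le]; push_cast; constructor <;> linarith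
    · rw [him, abs_le]; push_cast; constructor <;> linarith
  have hal : Alive ε (2 ^ 1 / 15) w := by rw [pow_one]; exact hw
  have hb := ((good_of_alive (by norm_num) hal).al hp.q4).bd
  have hTT : TT 1 = 57378078 := by norm_num [TT]
  rw [hTT] at hb
  have hW : BxW 536870912 536870912 58720256 (16777216 * w) := by
    have a1 := (Complex.abs_re_le_norm (16777216 * w)).trans hb
    have a2 := (Complex.abs_im_le_norm (16777216 * w)).trans hb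
    refine ⟨?_, ?_⟩
    · push_cast
      rw [sub_self, sub_zero]
      linarith
    · push_cast
      rw [sub_self, sub_zero]
      linarith
  exact root ε w hE hW hp hR hc a ha

lemma TestDead.mono {ε : ℂ} {p : ℕ} {w a : ℂ} {κ κ' τ : ℝ} (h : TestDead ε p w a κ τ)
    (hκ : κ' ≤ κ) : TestDead ε p w a κ' τ := by
  obtain ⟨s, hs, h1⟩ := h
  refine ⟨s, hs, fun Z hZ => h1 Z (hZ.trans ?_)⟩
  have := mul_le_mul_of_nonneg_right hκ (sq_nonneg s)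
  linarith

/-- **The flat regime.**  `κ 0 ≤ 562` is the second order constant at the phase of `2 / 15` on the
window `1 / 64`. -/
theorem loStmt_two
    (hper : ∀ ε : ℂ, Par ε → ∃ (θ : ℝ) (κ β : ℕ → ℝ), 0 ≤ θ ∧ θ < 1 ∧ 0 < κ 0 ∧ κ 0 ≤ 562 ∧
      PerQ ε 1 (202 / 100) (1 / 1024) θ κ β) : LoStmt 2 := by
  intro ε hP ρ A K V a0 hF hc0
  obtain ⟨θ, κ, β, hθ0, hθ1, hκ0, hκ1, hQ⟩ := hper ε hP
  have h := Pool.Agent.W_4481e3_h41.flat_hlo (a0 := a0) hP.adm hF hc0 (h := 1 / 1024) (by norm_num)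
    hθ0 hθ1 hκ0 hQ (fun w a hw hc ha => by
      have := TestDead.mono (flat_kill hP hw hc ha) hκ1
      rw [show (16:ℝ) * (1 / 1024) = 1 / 64 by norm_num]
      exact this)
  refine h.mono fun i hi => ?_
  have e : Lam * 2 = 202 / 100 := by unfold Lam; norm_num
  rw [e]; exact hi.le

end Pool.Agent.W_4481e3_h66
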