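import Pool.Agent.W_4481e3_h66.Cos

/-!
A Lyapunov function near the parabolic corner: along one period of the word `(0001)` the ratio
`|w - ε| / |w + ε|` decreases, for small `ε` and small `w`.
-/

namespace Pool.Agent.W_4481e3_h66

open Real

lemma norm_one_sub_le_exp (z : ℂ) : ‖1 - z‖ ≤ Real.exp (-z.re + ‖z‖ ^ 2 / 2) := by
  have h1 : ‖1 - z‖ ^ 2 = 1 + (-2 * z.re + ‖z‖ ^ 2) := by
    rw [Complex.sq_norm, Complex.sq_norm, Complex.normSq_apply, Complex.normSq_apply]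
    simp; ring
  have h2 : ‖1 - z‖ ^ 2 ≤ Real.exp (-z.re + ‖z‖ ^ 2 / 2) ^ 2 := by
    rw [h1, ← Real.exp_nat_mul]
    have h3 := Real.add_one_le_exp (-2 * z.re + ‖z‖ ^ 2)
    have h4 : ((2:ℕ) : ℝ) * (-z.re + ‖z‖ ^ 2 / 2) = -2 * z.re + ‖z‖ ^ 2 := by push_cast; ring
    rw [h4]; linarith
  exact le_of_sq_le_sq h2 (Real.exp_pos _).le

lemma ratio_step {d D x s t : ℝ} {ε X : ℂ} (hX : ‖X‖ ≤ x) (hd : |d| ≤ D) (h1 : D * x < 1)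
    (hs : 2 * D ^ 2 * x ≤ s * (1 - D * x)) (ht : 2 * D ^ 2 ≤ t * (1 - D * x) ^ 2) :
    ‖1 - (d:ℂ) * (X + 2 * ε)‖ ≤ ‖1 - (d:ℂ) * X‖ *
      Real.exp (-2 * d * ε.re + ‖ε‖ * s + ‖ε‖ ^ 2 * t) := by
  have hD : 0 ≤ D := (abs_nonneg d).trans hd
  have hx : 0 ≤ x := (norm_nonneg X).trans hX
  have hdX : ‖(d:ℂ) * X‖ ≤ D * x := by
    rw [norm_mul, Complex.norm_real, Real.norm_eq_abs]
    exact mul_le_mul hd hX (norm_nonneg _) hD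
  have hlow : 1 - D * x ≤ ‖1 - (d:ℂ) * X‖ := by
    have := norm_sub_norm_le (1:ℂ) ((d:ℂ) * X)
    rw [norm_one] at this
    linarith
  have hpos : 0 < 1 - D * x := by linarith
  have hne : (1 - (d:ℂ) * X) ≠ 0 := by
    intro h0; rw [h0, norm_zero] at hlow; linarith
  set z : ℂ := 2 * d * ε / (1 - (d:ℂ) * X) with hz
  have hfac : 1 - (d:ℂ) * (X + 2 * ε) = (1 - (d:ℂ) * X) * (1 - z) := by
    rw [hz, mul_sub, mul_one, mul_div_cancel₀ _ hne]; ring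
  rw [hfac, norm_mul]
  refine mul_le_mul_of_nonneg_left ?_ (norm_nonneg _)
  refine (norm_one_sub_le_exp z).trans ?_
  apply Real.exp_le_exp.mpr
  have hr : 0 ≤ ‖ε‖ := norm_nonneg _
  -- norm of z
  have hzn : ‖z‖ ≤ 2 * D * ‖ε‖ / (1 - D * x) := by
    rw [hz, norm_div, norm_mul, norm_mul, Complex.norm_real, Real.norm_eq_abs, Complex.norm_two]
    apply div_le_div₀ (by positivity) _ hpos hlow
    have := mul_le_mul_of_nonneg_right hd hr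
    nlinarith
  -- real part
  have hdec : z = 2 * d * ε + 2 * d * ε * ((d:ℂ) * X / (1 - (d:ℂ) * X)) := by
    rw [hz]; field_simp; ring
  have hw : ‖2 * (d:ℂ) * ε * ((d:ℂ) * X / (1 - (d:ℂ) * X))‖ ≤ ‖ε‖ * s := by
    rw [norm_mul, norm_div, norm_mul, norm_mul, norm_mul, Complex.norm_real, Real.norm_eq_abs,
      Complex.norm_two]
    have e1 : |d| * ‖X‖ / ‖1 - (d:ℂ) * X‖ ≤ D * x / (1 - D * x) := by
      apply div_le_div₀ (by positivity) _ hpos hlow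
      exact mul_le_mul hd hX (norm_nonneg _) hD
    have e2 : 2 * |d| * ‖ε‖ ≤ 2 * D * ‖ε‖ := by
      have := mul_le_mul_of_nonneg_right hd hr
      nlinarith
    have e3 : 2 * |d| * ‖ε‖ * (|d| * ‖X‖ / ‖1 - (d:ℂ) * X‖) ≤
        2 * D * ‖ε‖ * (D * x / (1 - D * x)) :=
      mul_le_mul e2 e1 (by positivity) (by positivity)
    refine e3.trans ?_
    have e4 : D * x / (1 - D * x) * (2 * D) ≤ s := by
      rw [div_mul_eq_mul_div, div_le_iff₀ hpos]; nlinarith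
    calc 2 * D * ‖ε‖ * (D * x / (1 - D * x)) = ‖ε‖ * (D * x / (1 - D * x) * (2 * D)) := by ring
      _ ≤ ‖ε‖ * s := mul_le_mul_of_nonneg_left e4 hr
  have hre : 2 * d * ε.re - ‖ε‖ * s ≤ z.re := by
    rw [hdec, Complex.add_re]
    have e5 := Complex.abs_re_le_norm (2 * (d:ℂ) * ε * ((d:ℂ) * X / (1 - (d:ℂ) * X)))
    have e6 : (2 * (d:ℂ) * ε).re = 2 * d * ε.re := by simp
    rw [e6]
    have := neg_abs_le (2 * (d:ℂ) * ε * ((d:ℂ) * X / (1 - (d:ℂ) * X))).re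
    linarith
  have hsq : ‖z‖ ^ 2 / 2 ≤ ‖ε‖ ^ 2 * t := by
    have e7 : ‖z‖ ^ 2 ≤ (2 * D * ‖ε‖ / (1 - D * x)) ^ 2 :=
      pow_le_pow_left₀ (norm_nonneg _) hzn 2
    have e8 : (2 * D * ‖ε‖ / (1 - D * x)) ^ 2 = 2 * (‖ε‖ ^ 2 * (2 * D ^ 2 / (1 - D * x) ^ 2)) := by
      field_simp
    have e9 : 2 * D ^ 2 / (1 - D * x) ^ 2 ≤ t := by
      rw [div_le_iff₀ (by positivity)]; exact ht
    have e10 := mul_le_mul_of_nonneg_left e9 (sq_nonneg ‖ε‖)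
    rw [e8] at e7
    linarith
  linarith

lemma prod_four {A0 A1 A2 A3 B0 B1 B2 B3 E0 E1 E2 E3 E : ℝ} (a1 : 0 ≤ A1) (a2 : 0 ≤ A2)
    (a3 : 0 ≤ A3) (b0 : 0 ≤ B0) (b1 : 0 ≤ B1) (b2 : 0 ≤ B2) (b3 : 0 ≤ B3) (f0 : 0 ≤ E0)
    (f1 : 0 ≤ E1) (f2 : 0 ≤ E2) (g0 : A0 ≤ B0 * E0) (g1 : A1 ≤ B1 * E1)
    (g2 : A2 ≤ B2 * E2) (g3 : A3 ≤ B3 * E3) (hE : E0 * E1 * E2 * E3 ≤ E) :
    A0 * A1 * A2 * A3 ≤ E * (B0 * B1 * B2 * B3) := by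
  have p1 : A0 * A1 ≤ (B0 * E0) * (B1 * E1) := mul_le_mul g0 g1 a1 (mul_nonneg b0 f0)
  have p2 : A0 * A1 * A2 ≤ (B0 * E0) * (B1 * E1) * (B2 * E2) :=
    mul_le_mul p1 g2 a2 (mul_nonneg (mul_nonneg b0 f0) (mul_nonneg b1 f1))
  have p3 : A0 * A1 * A2 * A3 ≤ (B0 * E0) * (B1 * E1) * (B2 * E2) * (B3 * E3) :=
    mul_le_mul p2 g3 a3 (mul_nonneg (mul_nonneg (mul_nonneg b0 f0) (mul_nonneg b1 f1))
      (mul_nonneg b2 f2))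
  refine p3.trans ?_
  have h : B0 * E0 * (B1 * E1) * (B2 * E2) * (B3 * E3) =
      (E0 * E1 * E2 * E3) * (B0 * B1 * B2 * B3) := by ring
  rw [h]
  exact mul_le_mul_of_nonneg_right hE (mul_nonneg (mul_nonneg (mul_nonneg b0 b1) b2) b3)

/-- one period, starting at the phase `4/15` -/
lemma period {d0 d1 d2 d3 : ℝ} (h0 : |d0| ≤ 1047 / 10000) (h1 : |d1| ≤ 9784 / 10000)
    (h2 : |d2| ≤ 9137 / 10000) (h3 : |d3| ≤ 6695 / 10000) (hsum : d0 + d1 + d2 + d3 = 1 / 2)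
    {ε w0 w1 w2 w3 w4 : ℂ} (hε : ‖ε‖ ≤ 1 / 32) (hsec : |ε.im| ≤ ε.re) (hw0 : ‖w0‖ ≤ 1 / 20)
    (e1 : w1 = w0 + d0 * (ε ^ 2 - w0 ^ 2)) (e2 : w2 = w1 + d1 * (ε ^ 2 - w1 ^ 2))
    (e3 : w3 = w2 + d2 * (ε ^ 2 - w2 ^ 2)) (e4 : w4 = w3 + d3 * (ε ^ 2 - w3 ^ 2)) :
    ‖w4 - ε‖ * ‖w0 + ε‖ ≤ Real.exp (-‖ε‖ / 8) * (‖w0 - ε‖ * ‖w4 + ε‖) := by
  have hr := norm_nonneg ε
  have hr2 : ‖ε‖ ^ 2 ≤ 1 / 1024 := by nlinarith
  -- size of the orbit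
  have stp : ∀ {d D a b : ℝ} {u v : ℂ}, |d| ≤ D → v = u + d * (ε ^ 2 - u ^ 2) → ‖u‖ ≤ a →
      a + D * (1 / 1024 + a ^ 2) ≤ b → ‖v‖ ≤ b := by
    intro d D a b u v hd hv hu hb
    rw [hv]
    refine (norm_add_le _ _).trans (le_trans ?_ hb)
    have q1 : ‖(d:ℂ) * (ε ^ 2 - u ^ 2)‖ ≤ D * (1 / 1024 + a ^ 2) := by
      rw [norm_mul, Complex.norm_real, Real.norm_eq_abs]
      have q2 : ‖ε ^ 2 - u ^ 2‖ ≤ 1 / 1024 + a ^ 2 := by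
        refine (norm_sub_le _ _).trans ?_
        rw [norm_pow, norm_pow]
        have := pow_le_pow_left₀ (norm_nonneg u) hu 2
        linarith
      exact mul_le_mul hd q2 (norm_nonneg _) ((abs_nonneg d).trans hd)
    linarith
  have b1 : ‖w1‖ ≤ 504 / 10000 := stp h0 e1 hw0 (by norm_num)
  have b2 : ‖w2‖ ≤ 539 / 10000 := stp h1 e2 b1 (by norm_num)
  have b3 : ‖w3‖ ≤ 575 / 10000 := stp h2 e3 b2 (by norm_num)
  have X : ∀ {u : ℂ} {a : ℝ}, ‖u‖ ≤ a → ‖u - ε‖ ≤ a + 1 / 32 := by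
    intro u a hu
    exact (norm_sub_le _ _).trans (add_le_add hu hε)
  have x0 := X hw0
  have x1 := X b1
  have x2 := X b2
  have x3 := X b3
  have g0 := ratio_step (ε := ε) (s := 18 / 10000) (t := 23 / 1000) x0 h0 (by norm_num) (by norm_num)
    (by norm_num)
  have g1 := ratio_step (ε := ε) (s := 1701 / 10000) (t := 2264 / 1000) x1 h1 (by norm_num)
    (by norm_num) (by norm_num)
  have g2 := ratio_step (ε := ε) (s := 1545 / 10000) (t := 1966 / 1000) x2 h2 (by norm_num)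
    (by norm_num) (by norm_num)
  have g3 := ratio_step (ε := ε) (s := 848 / 10000) (t := 1016 / 1000) x3 h3 (by norm_num)
    (by norm_num) (by norm_num)
  have y0 : w0 - ε + 2 * ε = w0 + ε := by ring
  have y1 : w1 - ε + 2 * ε = w1 + ε := by ring
  have y2 : w2 - ε + 2 * ε = w2 + ε := by ring
  have y3 : w3 - ε + 2 * ε = w3 + ε := by ring
  rw [y0] at g0
  rw [y1] at g1
  rw [y2] at g2
  rw [y3] at g3
  -- factorisations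
  have fX : ∀ {u v : ℂ} {d : ℝ}, v = u + d * (ε ^ 2 - u ^ 2) →
      v - ε = (u - ε) * (1 - d * (u + ε)) := by
    intro u v d hv; rw [hv]; ring
  have fY : ∀ {u v : ℂ} {d : ℝ}, v = u + d * (ε ^ 2 - u ^ 2) →
      v + ε = (u + ε) * (1 - d * (u - ε)) := by
    intro u v d hv; rw [hv]; ring
  have nX : ‖w4 - ε‖ = ‖w0 - ε‖ * (‖1 - (d0:ℂ) * (w0 + ε)‖ * ‖1 - (d1:ℂ) * (w1 + ε)‖ *
      ‖1 - (d2:ℂ) * (w2 + ε)‖ * ‖1 - (d3:ℂ) * (w3 + ε)‖) := by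
    rw [fX e4, fX e3, fX e2, fX e1]; simp only [norm_mul]; ring
  have nY : ‖w4 + ε‖ = ‖w0 + ε‖ * (‖1 - (d0:ℂ) * (w0 - ε)‖ * ‖1 - (d1:ℂ) * (w1 - ε)‖ *
      ‖1 - (d2:ℂ) * (w2 - ε)‖ * ‖1 - (d3:ℂ) * (w3 - ε)‖) := by
    rw [fY e4, fY e3, fY e2, fY e1]; simp only [norm_mul]; ring
  have hE : Real.exp (-2 * d0 * ε.re + ‖ε‖ * (18 / 10000) + ‖ε‖ ^ 2 * (23 / 1000)) *
      Real.exp (-2 * d1 * ε.re + ‖ε‖ * (1701 / 10000) + ‖ε‖ ^ 2 * (2264 / 1000)) *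
      Real.exp (-2 * d2 * ε.re + ‖ε‖ * (1545 / 10000) + ‖ε‖ ^ 2 * (1966 / 1000)) *
      Real.exp (-2 * d3 * ε.re + ‖ε‖ * (848 / 10000) + ‖ε‖ ^ 2 * (1016 / 1000)) ≤
      Real.exp (-‖ε‖ / 8) := by
    rw [← Real.exp_add, ← Real.exp_add, ← Real.exp_add]
    apply Real.exp_le_exp.mpr
    have hre0 : 0 ≤ ε.re := (abs_nonneg _).trans hsec
    have hre : 707 / 1000 * ‖ε‖ ≤ ε.re := by
      have h5 : ‖ε‖ ^ 2 ≤ 2 * ε.re ^ 2 := by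
        rw [Complex.sq_norm, Complex.normSq_apply]
        have h6 : |ε.im| ^ 2 ≤ ε.re ^ 2 := pow_le_pow_left₀ (abs_nonneg _) hsec 2
        rw [sq_abs] at h6
        nlinarith
      nlinarith
    have hq : ‖ε‖ ^ 2 ≤ ‖ε‖ / 32 := by nlinarith
    have hs : -2 * d0 * ε.re + -2 * d1 * ε.re + -2 * d2 * ε.re + -2 * d3 * ε.re = -ε.re := by
      have h7 : d3 = 1 / 2 - d0 - d1 - d2 := by linarith
      rw [h7]; ring
    linarith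
  have p4 := prod_four (norm_nonneg _) (norm_nonneg _) (norm_nonneg _) (norm_nonneg _)
    (norm_nonneg _) (norm_nonneg _) (norm_nonneg _) (Real.exp_pos _).le (Real.exp_pos _).le
    (Real.exp_pos _).le g0 g1 g2 g3 hE
  have hX0 : 0 ≤ ‖w0 - ε‖ * ‖w0 + ε‖ := mul_nonneg (norm_nonneg _) (norm_nonneg _)
  have p5 := mul_le_mul_of_nonneg_left p4 hX0
  rw [nX, nY]
  calc _ = ‖w0 - ε‖ * ‖w0 + ε‖ * (‖1 - (d0:ℂ) * (w0 + ε)‖ * ‖1 - (d1:ℂ) * (w1 + ε)‖ *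
        ‖1 - (d2:ℂ) * (w2 + ε)‖ * ‖1 - (d3:ℂ) * (w3 + ε)‖) := by ring
    _ ≤ _ := p5
    _ = _ := by ring

end Pool.Agent.W_4481e3_h66
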