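import Pool.Agent.W_4481e3_h66.DatA
import Pool.Agent.W_4481e3_h66.DatB
import Pool.Agent.W_4481e3_h66.DatC
import Pool.Agent.W_4481e3_h66.DatD
import Pool.Agent.W_4481e3_h66.DatE
import Pool.Agent.W_4481e3_h66.DatF
import Pool.Agent.W_4481e3_h66.DatG
import Pool.Agent.W_4481e3_h66.DatH
import Pool.Agent.W_4481e3_h66.DatI
import Pool.Agent.W_4481e3_h66.DatJ
import Pool.Agent.W_4481e3_h66.DatK
import Pool.Agent.W_4481e3_h66.DatL
import Pool.Agent.W_4481e3_h66.DatM
import Pool.Agent.W_4481e3_h66.DatN
import Pool.Agent.W_4481e3_h66.DatO
import Pool.Agent.W_4481e3_h66.DatP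

/-!
The whole tree of the flat regime.
-/

namespace Pool.Agent.W_4481e3_h66.Ev

theorem c8 : Cov 2097152 2097152 2097152 514850816 529530880 7340032 :=
  Cov.w (h := 3670016) (by norm_num) (by norm_num) p4 p5 p6 p7

theorem c19 : Cov 1048576 1048576 1048576 535035904 527695872 1835008 :=
  Cov.w (h := 917504) (by norm_num) (by norm_num) p15 p16 p17 p18

theorem c24 : Cov 1048576 3145728 1048576 535035904 527695872 1835008 :=
  Cov.e (H := 524288) (by norm_num) (by norm_num) p20 p21 p22 p23

theorem c27 : Cov 2097152 2097152 2097152 535035904 527695872 1835008 :=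
  Cov.e (H := 1048576) (by norm_num) (by norm_num) c19 c24 p25 p26

theorem c28 : Cov 2097152 2097152 2097152 533200896 525860864 3670016 :=
  Cov.w (h := 1835008) (by norm_num) (by norm_num) p12 p13 p14 c27

theorem c33 : Cov 2097152 2097152 2097152 533200896 533200896 3670016 :=
  Cov.w (h := 1835008) (by norm_num) (by norm_num) p29 p30 p31 p32

theorem c34 : Cov 2097152 2097152 2097152 529530880 529530880 7340032 :=
  Cov.w (h := 3670016) (by norm_num) (by norm_num) p10 p11 c28 c33

theorem c35 : Cov 2097152 2097152 2097152 522190848 522190848 14680064 :=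
  Cov.w (h := 7340032) (by norm_num) (by norm_num) p3 c8 p9 c34

theorem c36 : Cov 2097152 2097152 2097152 507510784 507510784 29360128 :=
  Cov.w (h := 14680064) (by norm_num) (by norm_num) p0 p1 p2 c35

theorem c49 : Cov 2097152 2097152 2097152 535035904 538705920 1835008 :=
  Cov.w (h := 917504) (by norm_num) (by norm_num) p45 p46 p47 p48

theorem c51 : Cov 2097152 2097152 2097152 533200896 540540928 3670016 :=
  Cov.w (h := 1835008) (by norm_num) (by norm_num) p43 p44 c49 p50

theorem c58 : Cov 2097152 2097152 2097152 535035904 546045952 1835008 :=
  Cov.w (h := 917504) (by norm_num) (by norm_num) p54 p55 p56 p57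

theorem c60 : Cov 2097152 2097152 2097152 533200896 547880960 3670016 :=
  Cov.w (h := 1835008) (by norm_num) (by norm_num) p52 p53 c58 p59

theorem c61 : Cov 2097152 2097152 2097152 529530880 544210944 7340032 :=
  Cov.w (h := 3670016) (by norm_num) (by norm_num) p41 p42 c51 c60

theorem c63 : Cov 2097152 2097152 2097152 522190848 551550976 14680064 :=
  Cov.w (h := 7340032) (by norm_num) (by norm_num) p39 p40 c61 p62

theorem c65 : Cov 2097152 2097152 2097152 507510784 566231040 29360128 :=
  Cov.w (h := 14680064) (by norm_num) (by norm_num) p37 p38 c63 p64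

theorem c74 : Cov 2097152 2097152 2097152 547880960 518520832 3670016 :=
  Cov.w (h := 1835008) (by norm_num) (by norm_num) p70 p71 p72 p73

theorem c75 : Cov 2097152 2097152 2097152 544210944 514850816 7340032 :=
  Cov.w (h := 3670016) (by norm_num) (by norm_num) p67 p68 p69 c74

theorem c80 : Cov 2097152 2097152 2097152 538705920 524025856 1835008 :=
  Cov.w (h := 917504) (by norm_num) (by norm_num) p76 p77 p78 p79

theorem c85 : Cov 1048576 1048576 1048576 538705920 527695872 1835008 :=
  Cov.w (h := 917504) (by norm_num) (by norm_num) p81 p82 p83 p84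

theorem c91 : Cov 3145728 1048576 1048576 538705920 527695872 1835008 :=
  Cov.w (h := 917504) (by norm_num) (by norm_num) p87 p88 p89 p90

theorem c93 : Cov 2097152 2097152 2097152 538705920 527695872 1835008 :=
  Cov.e (H := 1048576) (by norm_num) (by norm_num) c85 p86 c91 p92

theorem c99 : Cov 2097152 2097152 2097152 541458432 524943360 917504 :=
  Cov.e (H := 1048576) (by norm_num) (by norm_num) p95 p96 p97 p98

theorem c104 : Cov 2097152 2097152 2097152 543293440 523108352 917504 :=
  Cov.w (h := 458752) (by norm_num) (by norm_num) p100 p101 p102 p103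

theorem c109 : Cov 1048576 1048576 1048576 543293440 524943360 917504 :=
  Cov.w (h := 458752) (by norm_num) (by norm_num) p105 p106 p107 p108

theorem c115 : Cov 3145728 1048576 1048576 543293440 524943360 917504 :=
  Cov.w (h := 458752) (by norm_num) (by norm_num) p111 p112 p113 p114

theorem c117 : Cov 2097152 2097152 2097152 543293440 524943360 917504 :=
  Cov.e (H := 1048576) (by norm_num) (by norm_num) c109 p110 c115 p116

theorem c118 : Cov 2097152 2097152 2097152 542375936 524025856 1835008 :=
  Cov.w (h := 917504) (by norm_num) (by norm_num) p94 c99 c104 c117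

theorem c123 : Cov 2097152 2097152 2097152 542375936 527695872 1835008 :=
  Cov.e (H := 1048576) (by norm_num) (by norm_num) p119 p120 p121 p122

theorem c124 : Cov 2097152 2097152 2097152 540540928 525860864 3670016 :=
  Cov.w (h := 1835008) (by norm_num) (by norm_num) c80 c93 c118 c123

theorem c132 : Cov 65536 65536 65536 537329664 536412160 458752 :=
  Cov.w (h := 229376) (by norm_num) (by norm_num) p128 p129 p130 p131

theorem c136 : Cov 131072 131072 131072 537329664 536412160 458752 :=
  Cov.e (H := 65536) (by norm_num) (by norm_num) c132 p133 p134 p135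

theorem c139 : Cov 131072 131072 131072 537788416 535953408 917504 :=
  Cov.w (h := 458752) (by norm_num) (by norm_num) p127 c136 p137 p138

theorem c143 : Cov 262144 262144 262144 537788416 535953408 917504 :=
  Cov.e (H := 131072) (by norm_num) (by norm_num) c139 p140 p141 p142

theorem c147 : Cov 524288 524288 524288 537788416 535953408 917504 :=
  Cov.e (H := 262144) (by norm_num) (by norm_num) c143 p144 p145 p146

theorem c150 : Cov 524288 524288 524288 538705920 535035904 1835008 :=
  Cov.w (h := 917504) (by norm_num) (by norm_num) p126 c147 p148 p149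

theorem c154 : Cov 1048576 1048576 1048576 538705920 535035904 1835008 :=
  Cov.e (H := 524288) (by norm_num) (by norm_num) c150 p151 p152 p153

theorem c158 : Cov 2097152 2097152 2097152 538705920 535035904 1835008 :=
  Cov.e (H := 1048576) (by norm_num) (by norm_num) c154 p155 p156 p157

theorem c161 : Cov 2097152 2097152 2097152 540540928 533200896 3670016 :=
  Cov.w (h := 1835008) (by norm_num) (by norm_num) p125 c158 p159 p160

theorem c167 : Cov 1048576 1048576 1048576 545128448 524943360 917504 :=
  Cov.w (h := 458752) (by norm_num) (by norm_num) p163 p164 p165 p166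

theorem c173 : Cov 1048576 1048576 1048576 546963456 524943360 917504 :=
  Cov.w (h := 458752) (by norm_num) (by norm_num) p169 p170 p171 p172

theorem c174 : Cov 1048576 1048576 1048576 546045952 524025856 1835008 :=
  Cov.w (h := 917504) (by norm_num) (by norm_num) p162 c167 p168 c173

theorem c179 : Cov 1048576 3145728 1048576 546045952 524025856 1835008 :=
  Cov.e (H := 524288) (by norm_num) (by norm_num) p175 p176 p177 p178

theorem c185 : Cov 3145728 1048576 1048576 545128448 524943360 917504 :=
  Cov.w (h := 458752) (by norm_num) (by norm_num) p181 p182 p183 p184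

theorem c188 : Cov 3145728 1048576 1048576 546045952 524025856 1835008 :=
  Cov.w (h := 917504) (by norm_num) (by norm_num) p180 c185 p186 p187

theorem c193 : Cov 3145728 3145728 1048576 546045952 524025856 1835008 :=
  Cov.w (h := 917504) (by norm_num) (by norm_num) p189 p190 p191 p192

theorem c194 : Cov 2097152 2097152 2097152 546045952 524025856 1835008 :=
  Cov.e (H := 1048576) (by norm_num) (by norm_num) c174 c179 c188 c193

theorem c199 : Cov 2097152 2097152 2097152 546045952 527695872 1835008 :=
  Cov.e (H := 1048576) (by norm_num) (by norm_num) p195 p196 p197 p198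

theorem c204 : Cov 1048576 1048576 1048576 549715968 524025856 1835008 :=
  Cov.w (h := 917504) (by norm_num) (by norm_num) p200 p201 p202 p203

theorem c209 : Cov 1048576 3145728 1048576 549715968 524025856 1835008 :=
  Cov.e (H := 524288) (by norm_num) (by norm_num) p205 p206 p207 p208

theorem c214 : Cov 3145728 1048576 1048576 549715968 524025856 1835008 :=
  Cov.w (h := 917504) (by norm_num) (by norm_num) p210 p211 p212 p213

theorem c216 : Cov 2097152 2097152 2097152 549715968 524025856 1835008 :=
  Cov.e (H := 1048576) (by norm_num) (by norm_num) c204 c209 c214 p215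

theorem c218 : Cov 2097152 2097152 2097152 547880960 525860864 3670016 :=
  Cov.w (h := 1835008) (by norm_num) (by norm_num) c194 c199 c216 p217

theorem c220 : Cov 2097152 2097152 2097152 544210944 529530880 7340032 :=
  Cov.w (h := 3670016) (by norm_num) (by norm_num) c124 c161 c218 p219

theorem c227 : Cov 1048576 1048576 1048576 552468480 524943360 917504 :=
  Cov.w (h := 458752) (by norm_num) (by norm_num) p223 p224 p225 p226

theorem c232 : Cov 1048576 1048576 1048576 554303488 523108352 917504 :=
  Cov.w (h := 458752) (by norm_num) (by norm_num) p228 p229 p230 p231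

theorem c237 : Cov 1048576 1048576 1048576 554303488 524943360 917504 :=
  Cov.w (h := 458752) (by norm_num) (by norm_num) p233 p234 p235 p236

theorem c238 : Cov 1048576 1048576 1048576 553385984 524025856 1835008 :=
  Cov.w (h := 917504) (by norm_num) (by norm_num) p222 c227 c232 c237

theorem c243 : Cov 524288 2621440 524288 553385984 524025856 1835008 :=
  Cov.w (h := 917504) (by norm_num) (by norm_num) p239 p240 p241 p242

theorem c249 : Cov 1572864 2621440 524288 553385984 524025856 1835008 :=
  Cov.w (h := 917504) (by norm_num) (by norm_num) p245 p246 p247 p248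

theorem c254 : Cov 1572864 3670016 524288 553385984 524025856 1835008 :=
  Cov.w (h := 917504) (by norm_num) (by norm_num) p250 p251 p252 p253

theorem c255 : Cov 1048576 3145728 1048576 553385984 524025856 1835008 :=
  Cov.e (H := 524288) (by norm_num) (by norm_num) c243 p244 c249 c254

theorem c261 : Cov 3145728 1048576 1048576 552468480 524943360 917504 :=
  Cov.w (h := 458752) (by norm_num) (by norm_num) p257 p258 p259 p260

theorem c267 : Cov 3145728 1048576 1048576 554303488 524943360 917504 :=
  Cov.w (h := 458752) (by norm_num) (by norm_num) p263 p264 p265 p266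

theorem c268 : Cov 3145728 1048576 1048576 553385984 524025856 1835008 :=
  Cov.w (h := 917504) (by norm_num) (by norm_num) p256 c261 p262 c267

theorem c273 : Cov 2621440 2621440 524288 553385984 524025856 1835008 :=
  Cov.w (h := 917504) (by norm_num) (by norm_num) p269 p270 p271 p272

theorem c278 : Cov 2621440 3670016 524288 553385984 524025856 1835008 :=
  Cov.e (H := 262144) (by norm_num) (by norm_num) p274 p275 p276 p277

theorem c283 : Cov 3670016 2621440 524288 553385984 524025856 1835008 :=
  Cov.e (H := 262144) (by norm_num) (by norm_num) p279 p280 p281 p282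

theorem c285 : Cov 3145728 3145728 1048576 553385984 524025856 1835008 :=
  Cov.e (H := 524288) (by norm_num) (by norm_num) c273 c278 c283 p284

theorem c286 : Cov 2097152 2097152 2097152 553385984 524025856 1835008 :=
  Cov.e (H := 1048576) (by norm_num) (by norm_num) c238 c255 c268 c285

theorem c293 : Cov 1048576 1048576 1048576 556138496 524943360 917504 :=
  Cov.w (h := 458752) (by norm_num) (by norm_num) p289 p290 p291 p292

theorem c299 : Cov 1048576 1048576 1048576 557973504 524943360 917504 :=
  Cov.w (h := 458752) (by norm_num) (by norm_num) p295 p296 p297 p298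

theorem c300 : Cov 1048576 1048576 1048576 557056000 524025856 1835008 :=
  Cov.w (h := 917504) (by norm_num) (by norm_num) p288 c293 p294 c299

theorem c305 : Cov 524288 2621440 524288 557056000 524025856 1835008 :=
  Cov.w (h := 917504) (by norm_num) (by norm_num) p301 p302 p303 p304

theorem c311 : Cov 1572864 2621440 524288 557056000 524025856 1835008 :=
  Cov.w (h := 917504) (by norm_num) (by norm_num) p307 p308 p309 p310

theorem c316 : Cov 1572864 3670016 524288 557056000 524025856 1835008 :=
  Cov.w (h := 917504) (by norm_num) (by norm_num) p312 p313 p314 p315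

theorem c317 : Cov 1048576 3145728 1048576 557056000 524025856 1835008 :=
  Cov.e (H := 524288) (by norm_num) (by norm_num) c305 p306 c311 c316

theorem c324 : Cov 3145728 1048576 1048576 555679744 525402112 458752 :=
  Cov.w (h := 229376) (by norm_num) (by norm_num) p320 p321 p322 p323

theorem c330 : Cov 3145728 1048576 1048576 556597248 525402112 458752 :=
  Cov.w (h := 229376) (by norm_num) (by norm_num) p326 p327 p328 p329

theorem c331 : Cov 3145728 1048576 1048576 556138496 524943360 917504 :=
  Cov.w (h := 458752) (by norm_num) (by norm_num) p319 c324 p325 c330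

theorem c334 : Cov 3145728 1048576 1048576 557056000 524025856 1835008 :=
  Cov.w (h := 917504) (by norm_num) (by norm_num) p318 c331 p332 p333

theorem c340 : Cov 2621440 2621440 524288 556138496 524943360 917504 :=
  Cov.w (h := 458752) (by norm_num) (by norm_num) p336 p337 p338 p339

theorem c344 : Cov 3145728 3145728 1048576 556138496 524943360 917504 :=
  Cov.e (H := 524288) (by norm_num) (by norm_num) c340 p341 p342 p343

theorem c347 : Cov 3145728 3145728 1048576 557056000 524025856 1835008 :=
  Cov.w (h := 917504) (by norm_num) (by norm_num) p335 c344 p345 p346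

theorem c348 : Cov 2097152 2097152 2097152 557056000 524025856 1835008 :=
  Cov.e (H := 1048576) (by norm_num) (by norm_num) c300 c317 c334 c347

theorem c354 : Cov 1048576 3145728 1048576 557056000 527695872 1835008 :=
  Cov.e (H := 524288) (by norm_num) (by norm_num) p350 p351 p352 p353

theorem c361 : Cov 3145728 1048576 1048576 557973504 526778368 917504 :=
  Cov.w (h := 458752) (by norm_num) (by norm_num) p357 p358 p359 p360

theorem c363 : Cov 3145728 1048576 1048576 557056000 527695872 1835008 :=
  Cov.w (h := 917504) (by norm_num) (by norm_num) p355 p356 c361 p362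

theorem c368 : Cov 3145728 3145728 1048576 557056000 527695872 1835008 :=
  Cov.e (H := 524288) (by norm_num) (by norm_num) p364 p365 p366 p367

theorem c369 : Cov 2097152 2097152 2097152 557056000 527695872 1835008 :=
  Cov.e (H := 1048576) (by norm_num) (by norm_num) p349 c354 c363 c368

theorem c370 : Cov 2097152 2097152 2097152 555220992 525860864 3670016 :=
  Cov.w (h := 1835008) (by norm_num) (by norm_num) c286 p287 c348 c369

theorem c377 : Cov 2097152 2097152 2097152 559808512 524943360 917504 :=
  Cov.e (H := 1048576) (by norm_num) (by norm_num) p373 p374 p375 p376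

theorem c380 : Cov 2097152 2097152 2097152 560726016 524025856 1835008 :=
  Cov.w (h := 917504) (by norm_num) (by norm_num) p372 c377 p378 p379

theorem c385 : Cov 1048576 1048576 1048576 559808512 526778368 917504 :=
  Cov.w (h := 458752) (by norm_num) (by norm_num) p381 p382 p383 p384

theorem c392 : Cov 1048576 1048576 1048576 561643520 528613376 917504 :=
  Cov.w (h := 458752) (by norm_num) (by norm_num) p388 p389 p390 p391

theorem c393 : Cov 1048576 1048576 1048576 560726016 527695872 1835008 :=
  Cov.w (h := 917504) (by norm_num) (by norm_num) c385 p386 p387 c392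

theorem c398 : Cov 524288 2621440 524288 560726016 527695872 1835008 :=
  Cov.w (h := 917504) (by norm_num) (by norm_num) p394 p395 p396 p397

theorem c402 : Cov 1048576 3145728 1048576 560726016 527695872 1835008 :=
  Cov.e (H := 524288) (by norm_num) (by norm_num) c398 p399 p400 p401

theorem c407 : Cov 3145728 1048576 1048576 559808512 526778368 917504 :=
  Cov.w (h := 458752) (by norm_num) (by norm_num) p403 p404 p405 p406

theorem c412 : Cov 3145728 1048576 1048576 559808512 528613376 917504 :=
  Cov.w (h := 458752) (by norm_num) (by norm_num) p408 p409 p410 p411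

theorem c415 : Cov 3145728 1048576 1048576 560726016 527695872 1835008 :=
  Cov.w (h := 917504) (by norm_num) (by norm_num) c407 c412 p413 p414

theorem c420 : Cov 3145728 3145728 1048576 560726016 527695872 1835008 :=
  Cov.e (H := 524288) (by norm_num) (by norm_num) p416 p417 p418 p419

theorem c421 : Cov 2097152 2097152 2097152 560726016 527695872 1835008 :=
  Cov.e (H := 1048576) (by norm_num) (by norm_num) c393 c402 c415 c420

theorem c428 : Cov 2097152 2097152 2097152 563478528 528613376 917504 :=
  Cov.e (H := 1048576) (by norm_num) (by norm_num) p424 p425 p426 p427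

theorem c431 : Cov 2097152 2097152 2097152 564396032 527695872 1835008 :=
  Cov.w (h := 917504) (by norm_num) (by norm_num) p423 c428 p429 p430

theorem c432 : Cov 2097152 2097152 2097152 562561024 525860864 3670016 :=
  Cov.w (h := 1835008) (by norm_num) (by norm_num) c380 c421 p422 c431

theorem c437 : Cov 1048576 1048576 1048576 560726016 531365888 1835008 :=
  Cov.w (h := 917504) (by norm_num) (by norm_num) p433 p434 p435 p436

theorem c442 : Cov 1048576 3145728 1048576 560726016 531365888 1835008 :=
  Cov.e (H := 524288) (by norm_num) (by norm_num) p438 p439 p440 p441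

theorem c445 : Cov 2097152 2097152 2097152 560726016 531365888 1835008 :=
  Cov.e (H := 1048576) (by norm_num) (by norm_num) c437 c442 p443 p444

theorem c451 : Cov 2097152 2097152 2097152 564396032 531365888 1835008 :=
  Cov.e (H := 1048576) (by norm_num) (by norm_num) p447 p448 p449 p450

theorem c453 : Cov 2097152 2097152 2097152 562561024 533200896 3670016 :=
  Cov.w (h := 1835008) (by norm_num) (by norm_num) c445 p446 c451 p452

theorem c454 : Cov 2097152 2097152 2097152 558891008 529530880 7340032 :=
  Cov.w (h := 3670016) (by norm_num) (by norm_num) c370 p371 c432 c453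

theorem c455 : Cov 2097152 2097152 2097152 551550976 522190848 14680064 :=
  Cov.w (h := 7340032) (by norm_num) (by norm_num) c75 c220 p221 c454

theorem c462 : Cov 2097152 2097152 2097152 573571072 529530880 7340032 :=
  Cov.w (h := 3670016) (by norm_num) (by norm_num) p458 p459 p460 p461

theorem c465 : Cov 2097152 2097152 2097152 580911104 522190848 14680064 :=
  Cov.w (h := 7340032) (by norm_num) (by norm_num) p457 c462 p463 p464

theorem c466 : Cov 2097152 2097152 2097152 566231040 507510784 29360128 :=
  Cov.w (h := 14680064) (by norm_num) (by norm_num) p66 c455 p456 c465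

theorem c472 : Cov 2097152 2097152 2097152 538705920 542375936 1835008 :=
  Cov.e (H := 1048576) (by norm_num) (by norm_num) p468 p469 p470 p471

theorem c475 : Cov 2097152 2097152 2097152 540540928 540540928 3670016 :=
  Cov.w (h := 1835008) (by norm_num) (by norm_num) p467 c472 p473 p474

theorem c483 : Cov 1048576 1048576 1048576 539623424 546963456 917504 :=
  Cov.w (h := 458752) (by norm_num) (by norm_num) p479 p480 p481 p482

theorem c484 : Cov 1048576 1048576 1048576 538705920 546045952 1835008 :=
  Cov.w (h := 917504) (by norm_num) (by norm_num) p476 p477 p478 c483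

theorem c489 : Cov 1048576 3145728 1048576 538705920 546045952 1835008 :=
  Cov.e (H := 524288) (by norm_num) (by norm_num) p485 p486 p487 p488

theorem c494 : Cov 3145728 1048576 1048576 538705920 546045952 1835008 :=
  Cov.w (h := 917504) (by norm_num) (by norm_num) p490 p491 p492 p493

theorem c499 : Cov 3145728 3145728 1048576 538705920 546045952 1835008 :=
  Cov.e (H := 524288) (by norm_num) (by norm_num) p495 p496 p497 p498

theorem c500 : Cov 2097152 2097152 2097152 538705920 546045952 1835008 :=
  Cov.e (H := 1048576) (by norm_num) (by norm_num) c484 c489 c494 c499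

theorem c505 : Cov 2097152 2097152 2097152 538705920 549715968 1835008 :=
  Cov.w (h := 917504) (by norm_num) (by norm_num) p501 p502 p503 p504

theorem c510 : Cov 2097152 2097152 2097152 542375936 546045952 1835008 :=
  Cov.e (H := 1048576) (by norm_num) (by norm_num) p506 p507 p508 p509

theorem c517 : Cov 1048576 1048576 1048576 543293440 548798464 917504 :=
  Cov.w (h := 458752) (by norm_num) (by norm_num) p513 p514 p515 p516

theorem c519 : Cov 1048576 1048576 1048576 542375936 549715968 1835008 :=
  Cov.w (h := 917504) (by norm_num) (by norm_num) p511 p512 c517 p518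

theorem c524 : Cov 1048576 3145728 1048576 542375936 549715968 1835008 :=
  Cov.e (H := 524288) (by norm_num) (by norm_num) p520 p521 p522 p523

theorem c531 : Cov 3145728 1048576 1048576 543293440 548798464 917504 :=
  Cov.w (h := 458752) (by norm_num) (by norm_num) p527 p528 p529 p530

theorem c533 : Cov 3145728 1048576 1048576 542375936 549715968 1835008 :=
  Cov.w (h := 917504) (by norm_num) (by norm_num) p525 p526 c531 p532

theorem c538 : Cov 3145728 3145728 1048576 542375936 549715968 1835008 :=
  Cov.w (h := 917504) (by norm_num) (by norm_num) p534 p535 p536 p537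

theorem c539 : Cov 2097152 2097152 2097152 542375936 549715968 1835008 :=
  Cov.e (H := 1048576) (by norm_num) (by norm_num) c519 c524 c533 c538

theorem c540 : Cov 2097152 2097152 2097152 540540928 547880960 3670016 :=
  Cov.w (h := 1835008) (by norm_num) (by norm_num) c500 c505 c510 c539

theorem c547 : Cov 1048576 1048576 1048576 545128448 548798464 917504 :=
  Cov.w (h := 458752) (by norm_num) (by norm_num) p543 p544 p545 p546

theorem c552 : Cov 1048576 1048576 1048576 545128448 550633472 917504 :=
  Cov.w (h := 458752) (by norm_num) (by norm_num) p548 p549 p550 p551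

theorem c558 : Cov 1048576 1048576 1048576 546504704 549257216 458752 :=
  Cov.w (h := 229376) (by norm_num) (by norm_num) p554 p555 p556 p557

theorem c561 : Cov 1048576 1048576 1048576 546963456 548798464 917504 :=
  Cov.w (h := 458752) (by norm_num) (by norm_num) p553 c558 p559 p560

theorem c563 : Cov 1048576 1048576 1048576 546045952 549715968 1835008 :=
  Cov.w (h := 917504) (by norm_num) (by norm_num) c547 c552 c561 p562

theorem c568 : Cov 524288 2621440 524288 546045952 549715968 1835008 :=
  Cov.w (h := 917504) (by norm_num) (by norm_num) p564 p565 p566 p567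

theorem c574 : Cov 1572864 2621440 524288 546045952 549715968 1835008 :=
  Cov.w (h := 917504) (by norm_num) (by norm_num) p570 p571 p572 p573

theorem c579 : Cov 1572864 3670016 524288 546045952 549715968 1835008 :=
  Cov.w (h := 917504) (by norm_num) (by norm_num) p575 p576 p577 p578

theorem c580 : Cov 1048576 3145728 1048576 546045952 549715968 1835008 :=
  Cov.e (H := 524288) (by norm_num) (by norm_num) c568 p569 c574 c579

theorem c585 : Cov 3145728 1048576 1048576 545128448 548798464 917504 :=
  Cov.w (h := 458752) (by norm_num) (by norm_num) p581 p582 p583 p584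

theorem c591 : Cov 3145728 1048576 1048576 546963456 548798464 917504 :=
  Cov.w (h := 458752) (by norm_num) (by norm_num) p587 p588 p589 p590

theorem c593 : Cov 3145728 1048576 1048576 546045952 549715968 1835008 :=
  Cov.w (h := 917504) (by norm_num) (by norm_num) c585 p586 c591 p592

theorem c598 : Cov 2621440 2621440 524288 546045952 549715968 1835008 :=
  Cov.w (h := 917504) (by norm_num) (by norm_num) p594 p595 p596 p597

theorem c602 : Cov 3145728 3145728 1048576 546045952 549715968 1835008 :=
  Cov.e (H := 524288) (by norm_num) (by norm_num) c598 p599 p600 p601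

theorem c603 : Cov 2097152 2097152 2097152 546045952 549715968 1835008 :=
  Cov.e (H := 1048576) (by norm_num) (by norm_num) c563 c580 c593 c602

theorem c608 : Cov 2097152 2097152 2097152 549715968 546045952 1835008 :=
  Cov.e (H := 1048576) (by norm_num) (by norm_num) p604 p605 p606 p607

theorem c613 : Cov 1048576 1048576 1048576 549715968 549715968 1835008 :=
  Cov.w (h := 917504) (by norm_num) (by norm_num) p609 p610 p611 p612

theorem c617 : Cov 2097152 2097152 2097152 549715968 549715968 1835008 :=
  Cov.e (H := 1048576) (by norm_num) (by norm_num) c613 p614 p615 p616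

theorem c618 : Cov 2097152 2097152 2097152 547880960 547880960 3670016 :=
  Cov.w (h := 1835008) (by norm_num) (by norm_num) p542 c603 c608 c617

theorem c619 : Cov 2097152 2097152 2097152 544210944 544210944 7340032 :=
  Cov.w (h := 3670016) (by norm_num) (by norm_num) c475 c540 p541 c618

theorem c626 : Cov 2097152 2097152 2097152 546045952 553385984 1835008 :=
  Cov.w (h := 917504) (by norm_num) (by norm_num) p622 p623 p624 p625

theorem c630 : Cov 2097152 2097152 2097152 547880960 555220992 3670016 :=
  Cov.w (h := 1835008) (by norm_num) (by norm_num) c626 p627 p628 p629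

theorem c632 : Cov 2097152 2097152 2097152 544210944 558891008 7340032 :=
  Cov.w (h := 3670016) (by norm_num) (by norm_num) p620 p621 c630 p631

theorem c638 : Cov 2097152 2097152 2097152 553385984 546045952 1835008 :=
  Cov.e (H := 1048576) (by norm_num) (by norm_num) p634 p635 p636 p637

theorem c643 : Cov 1048576 1048576 1048576 552468480 548798464 917504 :=
  Cov.w (h := 458752) (by norm_num) (by norm_num) p639 p640 p641 p642

theorem c649 : Cov 1048576 1048576 1048576 554303488 548798464 917504 :=
  Cov.w (h := 458752) (by norm_num) (by norm_num) p645 p646 p647 p648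

theorem c651 : Cov 1048576 1048576 1048576 553385984 549715968 1835008 :=
  Cov.w (h := 917504) (by norm_num) (by norm_num) c643 p644 c649 p650

theorem c656 : Cov 1048576 3145728 1048576 553385984 549715968 1835008 :=
  Cov.e (H := 524288) (by norm_num) (by norm_num) p652 p653 p654 p655

theorem c663 : Cov 3145728 1048576 1048576 554303488 548798464 917504 :=
  Cov.w (h := 458752) (by norm_num) (by norm_num) p659 p660 p661 p662

theorem c665 : Cov 3145728 1048576 1048576 553385984 549715968 1835008 :=
  Cov.w (h := 917504) (by norm_num) (by norm_num) p657 p658 c663 p664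

theorem c670 : Cov 3145728 3145728 1048576 553385984 549715968 1835008 :=
  Cov.w (h := 917504) (by norm_num) (by norm_num) p666 p667 p668 p669

theorem c671 : Cov 2097152 2097152 2097152 553385984 549715968 1835008 :=
  Cov.e (H := 1048576) (by norm_num) (by norm_num) c651 c656 c665 c670

theorem c678 : Cov 3145728 1048576 1048576 557056000 546045952 1835008 :=
  Cov.w (h := 917504) (by norm_num) (by norm_num) p674 p675 p676 p677

theorem c680 : Cov 2097152 2097152 2097152 557056000 546045952 1835008 :=
  Cov.e (H := 1048576) (by norm_num) (by norm_num) p672 p673 c678 p679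

theorem c685 : Cov 1048576 1048576 1048576 556138496 548798464 917504 :=
  Cov.w (h := 458752) (by norm_num) (by norm_num) p681 p682 p683 p684

theorem c691 : Cov 1048576 1048576 1048576 557973504 548798464 917504 :=
  Cov.w (h := 458752) (by norm_num) (by norm_num) p687 p688 p689 p690

theorem c693 : Cov 1048576 1048576 1048576 557056000 549715968 1835008 :=
  Cov.w (h := 917504) (by norm_num) (by norm_num) c685 p686 c691 p692

theorem c698 : Cov 1048576 3145728 1048576 557056000 549715968 1835008 :=
  Cov.e (H := 524288) (by norm_num) (by norm_num) p694 p695 p696 p697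

theorem c705 : Cov 3145728 1048576 1048576 556597248 548339712 458752 :=
  Cov.w (h := 229376) (by norm_num) (by norm_num) p701 p702 p703 p704

theorem c707 : Cov 3145728 1048576 1048576 556138496 548798464 917504 :=
  Cov.w (h := 458752) (by norm_num) (by norm_num) p699 p700 c705 p706

theorem c711 : Cov 3145728 1048576 1048576 557056000 549715968 1835008 :=
  Cov.w (h := 917504) (by norm_num) (by norm_num) c707 p708 p709 p710

theorem c716 : Cov 3145728 3145728 1048576 557056000 549715968 1835008 :=
  Cov.w (h := 917504) (by norm_num) (by norm_num) p712 p713 p714 p715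

theorem c717 : Cov 2097152 2097152 2097152 557056000 549715968 1835008 :=
  Cov.e (H := 1048576) (by norm_num) (by norm_num) c693 c698 c711 c716

theorem c718 : Cov 2097152 2097152 2097152 555220992 547880960 3670016 :=
  Cov.w (h := 1835008) (by norm_num) (by norm_num) c638 c671 c680 c717

theorem c726 : Cov 2097152 2097152 2097152 564396032 542375936 1835008 :=
  Cov.e (H := 1048576) (by norm_num) (by norm_num) p722 p723 p724 p725

theorem c727 : Cov 2097152 2097152 2097152 562561024 540540928 3670016 :=
  Cov.w (h := 1835008) (by norm_num) (by norm_num) p719 p720 p721 c726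

theorem c733 : Cov 1048576 1048576 1048576 559808512 546963456 917504 :=
  Cov.w (h := 458752) (by norm_num) (by norm_num) p729 p730 p731 p732

theorem c736 : Cov 1048576 1048576 1048576 560726016 546045952 1835008 :=
  Cov.w (h := 917504) (by norm_num) (by norm_num) p728 c733 p734 p735

theorem c741 : Cov 1048576 3145728 1048576 560726016 546045952 1835008 :=
  Cov.e (H := 524288) (by norm_num) (by norm_num) p737 p738 p739 p740

theorem c747 : Cov 3145728 1048576 1048576 559808512 546963456 917504 :=
  Cov.w (h := 458752) (by norm_num) (by norm_num) p743 p744 p745 p746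

theorem c750 : Cov 3145728 1048576 1048576 560726016 546045952 1835008 :=
  Cov.w (h := 917504) (by norm_num) (by norm_num) p742 c747 p748 p749

theorem c755 : Cov 3145728 3145728 1048576 560726016 546045952 1835008 :=
  Cov.e (H := 524288) (by norm_num) (by norm_num) p751 p752 p753 p754

theorem c756 : Cov 2097152 2097152 2097152 560726016 546045952 1835008 :=
  Cov.e (H := 1048576) (by norm_num) (by norm_num) c736 c741 c750 c755

theorem c761 : Cov 2097152 2097152 2097152 559808512 548798464 917504 :=
  Cov.e (H := 1048576) (by norm_num) (by norm_num) p757 p758 p759 p760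

theorem c765 : Cov 2097152 2097152 2097152 560726016 549715968 1835008 :=
  Cov.w (h := 917504) (by norm_num) (by norm_num) c761 p762 p763 p764

theorem c770 : Cov 1048576 1048576 1048576 563478528 545128448 917504 :=
  Cov.w (h := 458752) (by norm_num) (by norm_num) p766 p767 p768 p769

theorem c774 : Cov 1048576 1048576 1048576 564396032 546045952 1835008 :=
  Cov.w (h := 917504) (by norm_num) (by norm_num) c770 p771 p772 p773

theorem c779 : Cov 1048576 3145728 1048576 564396032 546045952 1835008 :=
  Cov.e (H := 524288) (by norm_num) (by norm_num) p775 p776 p777 p778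

theorem c784 : Cov 3145728 1048576 1048576 564396032 546045952 1835008 :=
  Cov.w (h := 917504) (by norm_num) (by norm_num) p780 p781 p782 p783

theorem c786 : Cov 2097152 2097152 2097152 564396032 546045952 1835008 :=
  Cov.e (H := 1048576) (by norm_num) (by norm_num) c774 c779 c784 p785

theorem c788 : Cov 2097152 2097152 2097152 562561024 547880960 3670016 :=
  Cov.w (h := 1835008) (by norm_num) (by norm_num) c756 c765 c786 p787

theorem c789 : Cov 2097152 2097152 2097152 558891008 544210944 7340032 :=
  Cov.w (h := 3670016) (by norm_num) (by norm_num) p633 c718 c727 c788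

theorem c791 : Cov 2097152 2097152 2097152 551550976 551550976 14680064 :=
  Cov.w (h := 7340032) (by norm_num) (by norm_num) c619 c632 c789 p790

theorem c797 : Cov 2097152 2097152 2097152 573571072 544210944 7340032 :=
  Cov.w (h := 3670016) (by norm_num) (by norm_num) p793 p794 p795 p796

theorem c801 : Cov 2097152 2097152 2097152 580911104 551550976 14680064 :=
  Cov.w (h := 7340032) (by norm_num) (by norm_num) c797 p798 p799 p800

theorem c803 : Cov 2097152 2097152 2097152 566231040 566231040 29360128 :=
  Cov.w (h := 14680064) (by norm_num) (by norm_num) c791 p792 c801 p802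

theorem c804 : Cov 2097152 2097152 2097152 536870912 536870912 58720256 :=
  Cov.w (h := 29360128) (by norm_num) (by norm_num) c36 c65 c466 c803

theorem root : Cov 2097152 2097152 2097152 536870912 536870912 58720256 := c804

end Pool.Agent.W_4481e3_h66.Ev
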