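import Pool.Agent.W_4481e3_h66.EvF
import Pool.Agent.W_4481e3_q42.SndK
import Pool.Agent.W_4481e3_q42.Close
import Pool.Agent.W_4481e3_q12.SndB

/-!
Soundness of the test paths.
-/

open Filter Topology

namespace Pool.Agent.W_4481e3_h66.Ev

open Complex
open Pool.Agent.W_MP_4481e3_an.Ev (gd nrm1 pt InB gd_true div_lower div_upper ndiv_eq norm_pt_sq)
open Pool.Agent.W_4481e3_q12.Ev (ds nrm esc esc1 esc_sound ds_cast fid neg flip_fid flip_neg)
open Pool.Agent.W_4481e3_q42.Ev (nrq sep sen cf k0 InF nrq_sound sb_pos sb_neg PhK ste_sound sbp sbn)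
open Pool.Agent.W_4481e3_q42 (Alive Adm Dead)

lemma tot_sound {X Y t A B r F G : ℕ} {E W : ℂ} (hE : ‖E - k0 X Y‖ ≤ t)
    (hW : InF X Y E A B r F G W) : InB A B (tot t r F G) W := by
  have hFr : ((ds F 268435456 : ℕ) : ℝ) = |(F:ℝ) - 268435456| := by rw [ds_cast]; norm_num
  have hGr : ((ds G 268435456 : ℕ) : ℝ) = |(G:ℝ) - 268435456| := by rw [ds_cast]; norm_num
  have hFG : ‖cf F G‖ * 65536 ≤ nrq (ds F 268435456) (ds G 268435456) := by
    apply nrq_sound
    rw [hFr, hGr, sq_abs, sq_abs, mul_pow, Complex.sq_norm, Complex.normSq_apply]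
    unfold cf
    simp only
    apply le_of_eq; ring
  unfold tot InB
  unfold InF at hW
  simp only [Nat.add_eq, Nat.mul_eq, ndiv_eq]
  set nE := nrq (ds F 268435456) (ds G 268435456)
  clear_value nE
  have h1 := div_lower (nE * t) 65536 (by norm_num)
  push_cast at h1 ⊢
  have e1 : W - pt A B = (W - (pt A B + cf F G * (E - k0 X Y))) + cf F G * (E - k0 X Y) := by ring
  rw [e1]
  refine (norm_add_le _ _).trans ?_
  rw [norm_mul]
  have h2 : ‖cf F G‖ ≤ nE / 65536 := by rw [le_div_iff₀ (by norm_num)]; exact hFG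
  have h3 : ‖cf F G‖ * ‖E - k0 X Y‖ ≤ nE / 65536 * t :=
    mul_le_mul h2 hE (norm_nonneg _) (by positivity)
  have h4 : (nE:ℝ) / 65536 * t = nE * t / 65536 := by ring
  rw [h4] at h3
  linarith

lemma esc1_sound {A B p q R : ℕ} {W : ℂ} (hW : InB A B R W) {K : ℕ}
    (h : esc1 (ds A p) (ds B q) (Nat.add K R) = true) :
    (K:ℝ) < ‖W - ⟨(p:ℝ) - 536870912, (q:ℝ) - 536870912⟩‖ := by
  unfold esc1 at h
  simp only [Nat.add_eq, Nat.mul_eq] at h
  have h1 := Nat.le_of_ble_eq_true h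
  set c : ℂ := ⟨(p:ℝ) - 536870912, (q:ℝ) - 536870912⟩ with hc
  have e0 : pt A B - c = ⟨(A:ℝ) - p, (B:ℝ) - q⟩ := by
    apply Complex.ext
    · rw [Complex.sub_re]; unfold pt; simp only [hc]; ring
    · rw [Complex.sub_im]; unfold pt; simp only [hc]; ring
  have h2 : ((K:ℝ) + R) ^ 2 < ‖pt A B - c‖ ^ 2 := by
    rw [e0, Complex.sq_norm, Complex.normSq_apply]
    simp only
    have h3 : (K + R) * (K + R) < ds A p * ds A p + ds B q * ds B q := h1
    have h4 : (((K + R) * (K + R) : ℕ) : ℝ) <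
      ((ds A p * ds A p + ds B q * ds B q : ℕ) : ℝ) := by exact_mod_cast h3
    push_cast at h4
    rw [ds_cast, ds_cast] at h4
    have e1 := abs_mul_abs_self ((A:ℝ) - p)
    have e2 := abs_mul_abs_self ((B:ℝ) - q)
    nlinarith
  have h3 : (K:ℝ) + R < ‖pt A B - c‖ := lt_of_pow_lt_pow_left₀ 2 (norm_nonneg _) h2
  unfold InB at hW
  have h4 : ‖pt A B - c‖ ≤ ‖W - c‖ + ‖W - pt A B‖ := by
    have : pt A B - c = (W - c) - (W - pt A B) := by ring
    rw [this]
    exact norm_sub_le _ _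
  linarith

/-- what is used about the parameter -/
structure Pr (ε : ℂ) : Prop where
  adm : Adm ε
  q4 : ‖ε ^ 2‖ ≤ 1 / 4
  k0 : ‖1 / 4 - ε ^ 2‖ ≤ 2813 / 10000
  k3 : ‖1 / 4 - ε ^ 2 / 4‖ ≤ 1 / 4

/-- the threshold `TH` (scaled) is an escape threshold over the base `x` -/
def Thr (ε : ℂ) (TH : ℕ) (x : ℝ) : Prop := ∀ Z : ℂ, (TH:ℝ) < 16777216 * ‖Z‖ → ¬ Alive ε x Z

/-- the end of a path -/
def FinV (K : ℕ) (x : ℝ) : Prop :=
  (K = 0 → ∃ n : ℤ, x = n) ∧ (K = 1 → ∃ q : ℤ, 3 * x = q ∧ ¬ (3 ∣ q))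

/-- validity of a path over the base `x` -/
def PV (ε : ℂ) : Pth → ℝ → Prop
  | Pth.fin K, x => FinV K x
  | Pth.pos C TH p, x => C ≤ 16777216 ∧ |16777216 * Real.cos (2 * Real.pi * x) - C| ≤ 1 ∧
      Thr ε TH x ∧ PV ε p (2 * x)
  | Pth.neg C TH p, x => C ≤ 16777216 ∧ |16777216 * Real.cos (2 * Real.pi * x) + C| ≤ 1 ∧
      Thr ε TH x ∧ PV ε p (2 * x)

/-- the context of a leaf -/
structure Ctx (ε : ℂ) (X Y t te : ℕ) : Prop where
  hX : X ≤ 4194304
  hY : Y ≤ 4194304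
  ht : t ≤ 16777216
  hte : (t:ℝ) * 3 / 131072 + 36 ≤ te
  hE : ‖16777216 * ε ^ 2 - k0 X Y‖ ≤ t

lemma scale_step (ε : ℂ) (x : ℝ) (W : ℂ) :
    Pool.Agent.W_4481e3_q12.Ev.stp (Real.cos (2 * Real.pi * x)) (16777216 * ε ^ 2) W / 16777216 =
      Pool.Agent.W_4481e3_q42.stp (ε ^ 2) x (W / 16777216) := by
  unfold Pool.Agent.W_4481e3_q12.Ev.stp Pool.Agent.W_4481e3_q42.stp
  field_simp

/-- `W` (scaled) is not alive over `x` -/
def NA (ε : ℂ) (x : ℝ) (W : ℂ) : Prop := ¬ Alive ε x (W / 16777216)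

lemma NA.of_next {ε : ℂ} {x : ℝ} {W : ℂ} (h : NA ε (2 * x)
    (Pool.Agent.W_4481e3_q12.Ev.stp (Real.cos (2 * Real.pi * x)) (16777216 * ε ^ 2) W)) :
    NA ε x W := by
  intro hA
  apply h
  rw [scale_step]
  exact hA.next

lemma norm_scale (Z : ℂ) : 16777216 * ‖Z / 16777216‖ = ‖Z‖ := by
  rw [norm_div]
  have : ‖(16777216 : ℂ)‖ = 16777216 := by simp
  rw [this]; ring

section
variable {ε : ℂ} {X Y t te : ℕ}

lemma thr_sound (hc : Ctx ε X Y t te) {TH A B r F G : ℕ} {W : ℂ} {x : ℝ} (hT : Thr ε TH x)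
    (hW : InF X Y (16777216 * ε ^ 2) A B r F G W) (h : thr TH t A B r F G = true) : NA ε x W := by
  unfold thr at h
  have h1 := esc_sound (tot_sound hc.hE hW) h
  apply hT
  rw [norm_scale]; exact h1

lemma phk_pos {C : ℕ} {c : ℝ} (hC : C ≤ 16777216) (h : |16777216 * c - C| ≤ 1) (hc : |c| ≤ 1) :
    PhK fid sbp 4504149383184384 C (C * 536870912) c := by
  refine ⟨⟨1, Or.inl rfl, flip_fid, sb_pos, by norm_num, ?_⟩, rfl, hC, hc⟩
  rw [one_mul]; exact h

lemma phk_neg {C : ℕ} {c : ℝ} (hC : C ≤ 16777216) (h : |16777216 * c + C| ≤ 1) (hc : |c| ≤ 1) :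
    PhK neg sbn 4503049871556608 C (C * 536870912) c := by
  refine ⟨⟨-1, Or.inr rfl, flip_neg, sb_neg, by norm_num, ?_⟩, rfl, hC, hc⟩
  rw [neg_one_mul, sub_neg_eq_add]; exact h

lemma sep_sound (hc : Ctx ε X Y t te) {C A B r F G : ℕ} {W : ℂ} {x : ℝ}
    {k : ℕ → ℕ → ℕ → ℕ → ℕ → Bool} (hC : C ≤ 16777216)
    (hcos : |16777216 * Real.cos (2 * Real.pi * x) - C| ≤ 1)
    (hW : InF X Y (16777216 * ε ^ 2) A B r F G W) (h : sep C X Y t te A B r F G k = true)
    (hk : ∀ A B r F G W, InF X Y (16777216 * ε ^ 2) A B r F G W → k A B r F G = true →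
      NA ε (2 * x) W) : NA ε x W := by
  obtain ⟨A', B', r', F', G', h1, h2⟩ := ste_sound
    (phk_pos hC hcos (Real.abs_cos_le_one _)) hc.hX hc.hY hc.ht hc.hte hc.hE hW h
  exact (hk _ _ _ _ _ _ h2 h1).of_next

lemma sen_sound (hc : Ctx ε X Y t te) {C A B r F G : ℕ} {W : ℂ} {x : ℝ}
    {k : ℕ → ℕ → ℕ → ℕ → ℕ → Bool} (hC : C ≤ 16777216)
    (hcos : |16777216 * Real.cos (2 * Real.pi * x) + C| ≤ 1)
    (hW : InF X Y (16777216 * ε ^ 2) A B r F G W) (h : sen C X Y t te A B r F G k = true)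
    (hk : ∀ A B r F G W, InF X Y (16777216 * ε ^ 2) A B r F G W → k A B r F G = true →
      NA ε (2 * x) W) : NA ε x W := by
  obtain ⟨A', B', r', F', G', h1, h2⟩ := ste_sound
    (phk_neg hC hcos (Real.abs_cos_le_one _)) hc.hX hc.hY hc.ht hc.hte hc.hE hW h
  exact (hk _ _ _ _ _ _ h2 h1).of_next

/-- the end of the paths is handled by `kf` -/
def KfV (ε : ℂ) (X Y : ℕ) (kf : ℕ → ℕ → ℕ → ℕ → ℕ → ℕ → ℕ → Bool) : Prop :=
  ∀ K n x A B r F G W, FinV K x → InF X Y (16777216 * ε ^ 2) A B r F G W →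
    kf K n A B r F G = true → NA ε x W

theorem chn_sound (hc : Ctx ε X Y t te) {kf : ℕ → ℕ → ℕ → ℕ → ℕ → ℕ → ℕ → Bool}
    (hkf : KfV ε X Y kf) (p : Pth) : ∀ (x : ℝ) (n A B r F G : ℕ) (W : ℂ), PV ε p x →
      InF X Y (16777216 * ε ^ 2) A B r F G W → chn X Y t te kf p n A B r F G = true →
      NA ε x W := by
  induction p with
  | fin K =>
    intro x n A B r F G W hp hW h
    exact hkf K n x A B r F G W hp hW h
  | pos C TH p ih =>
    intro x n A B r F G W hp hW h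
    obtain ⟨h1, h2, h3, h4⟩ := hp
    cases n with
    | zero => exact thr_sound hc h3 hW h
    | succ n =>
      exact sep_sound hc h1 h2 hW h (fun A B r F G W hW hk => ih (2 * x) n A B r F G W h4 hW hk)
  | neg C TH p ih =>
    intro x n A B r F G W hp hW h
    obtain ⟨h1, h2, h3, h4⟩ := hp
    cases n with
    | zero => exact thr_sound hc h3 hW h
    | succ n =>
      exact sen_sound hc h1 h2 hW h (fun A B r F G W hW hk => ih (2 * x) n A B r F G W h4 hW hk)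

lemma cos_int {n : ℤ} {x : ℝ} (hx : x = n) : Real.cos (2 * Real.pi * x) = 1 := by
  have := Pool.Agent.W_4481e3_q42.cos_of_int hx 0
  simpa using this

lemma cos_third {q : ℤ} {x : ℝ} (hx : 3 * x = q) (hq : ¬ (3 ∣ q)) :
    Real.cos (2 * Real.pi * x) = -1 / 2 := by
  have := Pool.Agent.W_4481e3_q42.cos_of_third hx hq 0
  simpa using this

lemma fz0_sound (hc : Ctx ε X Y t te) {k : ℕ → ℕ → ℕ → ℕ → ℕ → Bool}
    (hk : ∀ (n : ℤ) A B r F G W, InF X Y (16777216 * ε ^ 2) A B r F G W → k A B r F G = true →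
      NA ε n W) (j : ℕ) : ∀ (n : ℤ) A B r F G W, InF X Y (16777216 * ε ^ 2) A B r F G W →
      fz0 X Y t te k j A B r F G = true → NA ε n W := by
  induction j with
  | zero => intro n A B r F G W hW h; exact hk n A B r F G W hW h
  | succ j ih =>
    intro n A B r F G W hW h
    have hx : ((n:ℤ):ℝ) = (n:ℤ) := rfl
    refine sep_sound (x := (n:ℝ)) (C := 16777216) hc le_rfl ?_ hW h ?_
    · rw [cos_int hx]; norm_num
    · intro A B r F G W hW hk'
      have := ih (2 * n) A B r F G W hW hk'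
      push_cast at this
      exact this

lemma fz3_sound (hc : Ctx ε X Y t te) {k : ℕ → ℕ → ℕ → ℕ → ℕ → Bool}
    (hk : ∀ (x : ℝ) (q : ℤ) A B r F G W, 3 * x = q → ¬ (3 ∣ q) →
      InF X Y (16777216 * ε ^ 2) A B r F G W → k A B r F G = true → NA ε x W) (j : ℕ) :
    ∀ (x : ℝ) (q : ℤ) A B r F G W, 3 * x = q → ¬ (3 ∣ q) →
      InF X Y (16777216 * ε ^ 2) A B r F G W → fz3 X Y t te k j A B r F G = true → NA ε x W := by
  induction j with
  | zero => intro x q A B r F G W hx hq hW h; exact hk x q A B r F G W hx hq hW h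
  | succ j ih =>
    intro x q A B r F G W hx hq hW h
    refine sen_sound (x := x) (C := 8388608) hc (by norm_num) ?_ hW h ?_
    · rw [cos_third hx hq]; norm_num
    · intro A B r F G W hW hk'
      exact ih (2 * x) (2 * q) A B r F G W (by push_cast; linarith) (by omega) hW hk'

/-- the traps -/
def TrV0 (ε : ℂ) (T0 : ℕ → ℕ → ℕ → Bool) : Prop := ∀ (n : ℤ) (A B R : ℕ) (W : ℂ),
  InB A B R W → T0 A B R = true → NA ε n W
def TrV3 (ε : ℂ) (T3 : ℕ → ℕ → ℕ → Bool) : Prop := ∀ (x : ℝ) (q : ℤ) (A B R : ℕ) (W : ℂ),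
  3 * x = q → ¬ (3 ∣ q) → InB A B R W → T3 A B R = true → NA ε x W

lemma es0_sound (hp : Pr ε) (hc : Ctx ε X Y t te) {n : ℤ} {A B r F G : ℕ} {W : ℂ}
    (hW : InF X Y (16777216 * ε ^ 2) A B r F G W) (h : es0 t A B r F G = true) : NA ε n W := by
  unfold es0 at h
  have h1 := esc1_sound (tot_sound hc.hE hW) h
  have e1 : (⟨((545259520:ℕ):ℝ) - 536870912, ((536870912:ℕ):ℝ) - 536870912⟩ : ℂ) = 8388608 := by
    apply Complex.ext
    · norm_num
    · norm_num
  rw [e1] at h1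
  refine Pool.Agent.W_4481e3_q42.not_alive_esc0 (n := n) rfl (r := 1.2303) ?_ (by norm_num) ?_
  · have := hp.k0
    norm_num at this ⊢
    linarith
  · have e2 : W / 16777216 - 1 / 2 = (W - 8388608) / 16777216 := by ring
    have h16 : ‖(16777216 : ℂ)‖ = 16777216 := by simp
    rw [e2, norm_div, h16, le_div_iff₀ (by norm_num)]
    push_cast at h1
    norm_num at h1 ⊢
    linarith

lemma es3_sound (hp : Pr ε) (hc : Ctx ε X Y t te) {x : ℝ} {q : ℤ} {A B r F G : ℕ} {W : ℂ}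
    (hx : 3 * x = q) (hq : ¬ (3 ∣ q))
    (hW : InF X Y (16777216 * ε ^ 2) A B r F G W) (h : es3 t A B r F G = true) : NA ε x W := by
  unfold es3 at h
  have h1 := esc1_sound (tot_sound hc.hE hW) h
  have e1 : (⟨((520093696:ℕ):ℝ) - 536870912, ((536870912:ℕ):ℝ) - 536870912⟩ : ℂ) = -16777216 := by
    apply Complex.ext
    · norm_num
    · norm_num
  rw [e1] at h1
  refine Pool.Agent.W_4481e3_q42.not_alive_esc3 hx hq (r := 1.20715) ?_ (by norm_num) ?_
  · have := hp.k3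
    norm_num at this ⊢
    linarith
  · have e2 : W / 16777216 + 1 = (W - -16777216) / 16777216 := by ring
    have h16 : ‖(16777216 : ℂ)‖ = 16777216 := by simp
    rw [e2, norm_div, h16, le_div_iff₀ (by norm_num)]
    push_cast at h1
    norm_num at h1 ⊢
    linarith

theorem kfin_sound (hp : Pr ε) (hc : Ctx ε X Y t te) {T0 T3 : ℕ → ℕ → ℕ → Bool}
    (h0 : TrV0 ε T0) (h3 : TrV3 ε T3) : KfV ε X Y (kfin T0 T3 X Y t te) := by
  intro K n x A B r F G W hF hW h
  match K, hF, h with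
  | 0, hF, h =>
    obtain ⟨m, rfl⟩ := hF.1 rfl
    refine fz0_sound hc ?_ _ m A B r F G W hW h
    intro n' A B r F G W hW h
    generalize n.mod 2 = b at h
    cases b with
    | zero => exact es0_sound hp hc hW h
    | succ b => exact h0 n' A B _ W (tot_sound hc.hE hW) h
  | 1, hF, h =>
    obtain ⟨q, hx, hq⟩ := hF.2 rfl
    refine fz3_sound hc ?_ _ x q A B r F G W hx hq hW h
    intro x q A B r F G W hx hq hW h
    generalize n.mod 2 = b at h
    cases b with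
    | zero => exact es3_sound hp hc hx hq hW h
    | succ b => exact h3 x q A B _ W hx hq (tot_sound hc.hE hW) h
  | K + 2, hF, h => exact absurd h (by simp [kfin])

end

/-- validity of a table -/
def TV (Q : ℕ → Pth → Prop) : Tab → Prop
  | Tab.nil => True
  | Tab.cons o p t => Q o p ∧ TV Q t

lemma look_sound {Q : ℕ → Pth → Prop} {k : ℕ → Pth → Bool} (tb : Tab) : ∀ T, TV Q tb →
    look k tb T = true → ∃ o p, Q o p ∧ k o p = true := by
  induction tb with
  | nil => intro T _ h; exact absurd h (by simp [look])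
  | cons o p t ih =>
    intro T hV h
    cases T with
    | zero => exact ⟨o, p, hV.1, h⟩
    | succ T => exact ih T hV.2 h

/-- the test with offset `o` and path `p`, slopes up to `Af`, constant `κ`, window `τ` -/
def TQ (ε : ℂ) (Af κ τ : ℝ) (o : ℕ) (p : Pth) : Prop :=
  ∃ s : ℝ, |s| ≤ τ ∧ 16777216 * (Af * |s| + κ * s ^ 2 / 2) ≤ o ∧ PV ε p (2 / 15 + s)

theorem tst2_sound {ε : ℂ} {X Y t te : ℕ} (hp : Pr ε) (hc : Ctx ε X Y t te)
    {T0 T3 : ℕ → ℕ → ℕ → Bool} (h0 : TrV0 ε T0) (h3 : TrV3 ε T3) {tb : Tab} {Af κ τ : ℝ}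
    (htb : TV (TQ ε Af κ τ) tb) {T n A B r : ℕ} {w a : ℂ} (hw : InB A B r (16777216 * w))
    (ha : ‖a‖ ≤ Af) (h : tst2 tb T0 T3 T n X Y t te A B r = true) :
    Pool.Agent.W_4481e3_q42.TestDead ε 1 w a κ τ := by
  obtain ⟨o, p, ⟨s, hs, ho, hp'⟩, hk⟩ := look_sound tb T htb h
  refine ⟨s, hs, fun Z hZ => ?_⟩
  have hx : (2:ℝ) ^ 1 / 15 + s = 2 / 15 + s := by norm_num
  rw [hx]
  have h1 : InF X Y (16777216 * ε ^ 2) A B (r + o) 268435456 268435456 (16777216 * Z) := by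
    unfold InF
    have e0 : cf 268435456 268435456 = 0 := by
      unfold cf; apply Complex.ext <;> norm_num
    rw [e0, zero_mul, add_zero]
    unfold InB at hw
    have e1 : 16777216 * Z - pt A B = (16777216 * w - pt A B) + 16777216 * (a * s + (Z - (w + a * s))) := by
      ring
    rw [e1]
    refine (norm_add_le _ _).trans ?_
    have h16 : ‖(16777216 : ℂ)‖ = 16777216 := by simp
    rw [norm_mul, h16]
    have h2 : ‖a * s + (Z - (w + a * s))‖ ≤ Af * |s| + κ * s ^ 2 / 2 := by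
      refine (norm_add_le _ _).trans ?_
      rw [norm_mul, Complex.norm_real, Real.norm_eq_abs]
      have := mul_le_mul_of_nonneg_right ha (abs_nonneg s)
      linarith
    push_cast
    linarith
  have h2 := chn_sound hc (kfin_sound hp hc h0 h3) p (2 / 15 + s) n A B _ _ _ _ hp' h1 hk
  unfold NA at h2
  have e2 : 16777216 * Z / 16777216 = Z := by field_simp
  rwa [e2] at h2

end Pool.Agent.W_4481e3_h66.Ev
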