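import Pool.Agent.W_4481e3_h66.TreeF
import Pool.Agent.W_4481e3_h66.CenF
import Pool.Agent.W_4481e3_q12.SndT

/-!
Soundness of the trees of the flat regime.
-/

namespace Pool.Agent.W_4481e3_h66.Ev

open Complex
open Pool.Agent.W_MP_4481e3_an.Ev (gd pt InB gd_true div_lower div_upper ndiv_eq norm_pt_sq)
open Pool.Agent.W_4481e3_q12.Ev (ds ds_cast out out_sound Rg BxE BxW box_norm Ok okb okb_sound
  half_of_dvd)
open Pool.Agent.W_4481e3_q42.Ev (k0)
open Pool.Agent.W_4481e3_q42 (TestDead)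

/-- the statement certified on a cell -/
def Cl (ε w : ℂ) : Prop := Pr ε → Rg (16777216 * ε ^ 2) → (‖ε ^ 2‖ ≤ 1 / 1024 → 1 / 21 < ‖w‖) →
  ∀ a : ℂ, ‖a‖ ≤ 202 / 100 → TestDead ε 1 w a 562 (1 / 64)

/-- the statement on a cell -/
def Cov (X Y H A B h : ℕ) : Prop :=
  ∀ ε w : ℂ, BxE X Y H (16777216 * ε ^ 2) → BxW A B h (16777216 * w) → Cl ε w

/-- soundness of the leaves -/
def LfV (lf : ℕ → ℕ → ℕ → ℕ → ℕ → ℕ → ℕ → ℕ → Bool) : Prop :=
  ∀ T n X Y H A B h, X ≤ 4194304 → Y ≤ 4194304 → H ≤ 4194304 → lf T n X Y H A B h = true →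
    Cov X Y H A B h

lemma Cov.e {X Y H A B h : ℕ} (hX : H ≤ X) (hY : H ≤ Y)
    (c1 : Cov (X - H) (Y - H) H A B h) (c2 : Cov (X - H) (Y + H) H A B h)
    (c3 : Cov (X + H) (Y - H) H A B h) (c4 : Cov (X + H) (Y + H) H A B h) :
    Cov X Y (2 * H) A B h := by
  intro ε w hE hW
  have cX : ((X - H : ℕ) : ℝ) = X - H := Nat.cast_sub hX
  have cY : ((Y - H : ℕ) : ℝ) = Y - H := Nat.cast_sub hY
  obtain ⟨y1, y2⟩ := hE
  push_cast at y1 y2
  rw [abs_le] at y1 y2
  rcases le_total (16777216 * ε ^ 2).re (X:ℝ) with r1 | r1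
  · rcases le_total (16777216 * ε ^ 2).im (Y:ℝ) with r2 | r2
    · refine c1 ε w ⟨?_, ?_⟩ hW
      · rw [cX, abs_le]; constructor <;> linarith
      · rw [cY, abs_le]; constructor <;> linarith
    · refine c2 ε w ⟨?_, ?_⟩ hW
      · rw [cX, abs_le]; constructor <;> linarith
      · push_cast; rw [abs_le]; constructor <;> linarith
  · rcases le_total (16777216 * ε ^ 2).im (Y:ℝ) with r2 | r2
    · refine c3 ε w ⟨?_, ?_⟩ hW
      · push_cast; rw [abs_le]; constructor <;> linarith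
      · rw [cY, abs_le]; constructor <;> linarith
    · refine c4 ε w ⟨?_, ?_⟩ hW
      · push_cast; rw [abs_le]; constructor <;> linarith
      · push_cast; rw [abs_le]; constructor <;> linarith

lemma Cov.w {X Y H A B h : ℕ} (hA : h ≤ A) (hB : h ≤ B)
    (c1 : Cov X Y H (A - h) (B - h) h) (c2 : Cov X Y H (A - h) (B + h) h)
    (c3 : Cov X Y H (A + h) (B - h) h) (c4 : Cov X Y H (A + h) (B + h) h) :
    Cov X Y H A B (2 * h) := by
  intro ε w hE hW
  have cA : ((A - h : ℕ) : ℝ) = A - h := Nat.cast_sub hA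
  have cB : ((B - h : ℕ) : ℝ) = B - h := Nat.cast_sub hB
  obtain ⟨y1, y2⟩ := hW
  push_cast at y1 y2
  rw [abs_le] at y1 y2
  rcases le_total (16777216 * w).re ((A:ℝ) - 536870912) with r1 | r1
  · rcases le_total (16777216 * w).im ((B:ℝ) - 536870912) with r2 | r2
    · refine c1 ε w hE ⟨?_, ?_⟩
      · rw [cA, abs_le]; constructor <;> linarith
      · rw [cB, abs_le]; constructor <;> linarith
    · refine c2 ε w hE ⟨?_, ?_⟩
      · rw [cA, abs_le]; constructor <;> linarith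
      · push_cast; rw [abs_le]; constructor <;> linarith
  · rcases le_total (16777216 * w).im ((B:ℝ) - 536870912) with r2 | r2
    · refine c3 ε w hE ⟨?_, ?_⟩
      · push_cast; rw [abs_le]; constructor <;> linarith
      · rw [cB, abs_le]; constructor <;> linarith
    · refine c4 ε w hE ⟨?_, ?_⟩
      · push_cast; rw [abs_le]; constructor <;> linarith
      · push_cast; rw [abs_le]; constructor <;> linarith

lemma out_cov {X Y H A B h : ℕ} (hc : out X Y H = true) : Cov X Y H A B h :=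
  fun _ _ hE _ _ hR => absurd hR (out_sound hE hc)

lemma ds_le {A h : ℕ} {x : ℝ} (hx : |x - ((A:ℝ) - 536870912)| ≤ h) :
    |x| ≤ ((ds A 536870912 + h : ℕ) : ℝ) := by
  have e : x = (x - ((A:ℝ) - 536870912)) + ((A:ℝ) - 536870912) := by ring
  push_cast
  rw [ds_cast]
  push_cast
  calc |x| = |(x - ((A:ℝ) - 536870912)) + ((A:ℝ) - 536870912)| := by rw [← e]
    _ ≤ _ := by
      refine (abs_add_le _ _).trans ?_
      linarith

lemma crn_cov {X Y H A B h : ℕ} (hc : crn X Y H A B h = true) : Cov X Y H A B h := by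
  intro ε w hE hW _ _ hcor
  unfold crn at hc
  rw [gd_true] at hc
  simp only [Nat.add_eq, Nat.mul_eq] at hc
  obtain ⟨h1, h2⟩ := hc
  have h1 := Nat.le_of_ble_eq_true h1
  have h2 := Nat.le_of_ble_eq_true h2
  exfalso
  have nsq : ∀ z : ℂ, ‖z‖ ^ 2 = |z.re| ^ 2 + |z.im| ^ 2 := fun z => by
    rw [Complex.sq_norm, Complex.normSq_apply, sq_abs, sq_abs]; ring
  have h16 : ‖(16777216 : ℂ)‖ = 16777216 := by simp
  have hre : |(16777216 * ε ^ 2).re| ≤ ((X + H : ℕ) : ℝ) := by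
    have := abs_le.1 hE.1
    have hX : (0:ℝ) ≤ X := Nat.cast_nonneg _
    have hH : (0:ℝ) ≤ H := Nat.cast_nonneg _
    push_cast
    rw [abs_le]; constructor <;> linarith
  have him : |(16777216 * ε ^ 2).im| ≤ ((Y + H : ℕ) : ℝ) := by
    have := abs_le.1 hE.2
    have hX : (0:ℝ) ≤ Y := Nat.cast_nonneg _
    have hH : (0:ℝ) ≤ H := Nat.cast_nonneg _
    push_cast
    rw [abs_le]; constructor <;> linarith
  have hwr := ds_le (A := A) (h := h) hW.1
  have hwi := ds_le (A := B) (h := h) hW.2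
  have e1 : ‖16777216 * ε ^ 2‖ ^ 2 ≤ 16384 ^ 2 := by
    rw [nsq, show (16384:ℝ) ^ 2 = 268435456 by norm_num]
    have a1 := pow_le_pow_left₀ (abs_nonneg _) hre 2
    have a2 := pow_le_pow_left₀ (abs_nonneg _) him 2
    have a3 : (((X + H) * (X + H) + (Y + H) * (Y + H) : ℕ) : ℝ) ≤ 268435456 := by exact_mod_cast h1
    push_cast at a1 a2 a3
    linarith
  have e2 : ‖16777216 * w‖ ^ 2 ≤ 798915 ^ 2 := by
    rw [nsq, show (798915:ℝ) ^ 2 = 638265177225 by norm_num]
    have a1 := pow_le_pow_left₀ (abs_nonneg _) hwr 2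
    have a2 := pow_le_pow_left₀ (abs_nonneg _) hwi 2
    have a3 : (((ds A 536870912 + h) * (ds A 536870912 + h) +
      (ds B 536870912 + h) * (ds B 536870912 + h) : ℕ) : ℝ) ≤ 638265177225 := by exact_mod_cast h2
    push_cast at a1 a2 a3
    linarith
  have e3 := abs_le_of_sq_le_sq' e1 (by norm_num)
  have e4 := abs_le_of_sq_le_sq' e2 (by norm_num)
  rw [norm_mul, h16] at e3 e4
  have := hcor (by linarith [e3.2])
  linarith [e4.2]

lemma lfn_sound {lf : ℕ → ℕ → ℕ → ℕ → ℕ → ℕ → ℕ → ℕ → Bool} (hl : LfV lf) {m X Y H A B h n : ℕ}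
    (hX : X ≤ 4194304) (hY : Y ≤ 4194304) (hH : H ≤ 4194304)
    (h0 : lfn lf m X Y H A B h n ≠ 0) : n ≠ 0 ∧ Cov X Y H A B h := by
  unfold lfn at h0
  cases h28 : Nat.ble 28 m with
  | false =>
    rw [h28] at h0
    cases hc : lf m (Nat.mod n 128) X Y H A B h with
    | false => rw [hc] at h0; exact absurd rfl h0
    | true =>
      rw [hc] at h0
      refine ⟨fun hn => h0 ?_, hl _ _ _ _ _ _ _ _ hX hY hH hc⟩
      subst hn
      rfl
  | true =>
    rw [h28] at h0
    cases h29 : Nat.ble 29 m with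
    | false =>
      rw [h29] at h0
      cases hc : out X Y H with
      | false => rw [hc] at h0; exact absurd rfl h0
      | true => rw [hc] at h0; exact ⟨h0, out_cov hc⟩
    | true =>
      rw [h29] at h0
      cases hc : crn X Y H A B h with
      | false => rw [hc] at h0; exact absurd rfl h0
      | true => rw [hc] at h0; exact ⟨h0, crn_cov hc⟩

section
variable {lf : ℕ → ℕ → ℕ → ℕ → ℕ → ℕ → ℕ → ℕ → Bool}

lemma go_zero (X Y H A B h n : ℕ) :
    go lf 0 X Y H A B h n = lfn lf (n % 32) X Y H A B h (n / 32) := rfl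

lemma go_succ (d X Y H A B h n : ℕ) :
    go lf (d + 1) X Y H A B h n = nd lf (go lf d) (n % 32) X Y H A B h (n / 32) := rfl

lemma go_sound (hl : LfV lf) (d : ℕ) : ∀ {X Y H A B h n : ℕ}, Ok d X Y H A B h →
    go lf d X Y H A B h n ≠ 0 → n ≠ 0 ∧ Cov X Y H A B h := by
  induction d with
  | zero =>
    intro X Y H A B h n ok hg
    rw [go_zero] at hg
    obtain ⟨h1, h2⟩ := lfn_sound hl (by have := ok.X1; omega) (by have := ok.Y1; omega)
      (by have := ok.X1; omega) hg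
    exact ⟨fun h0 => h1 (by rw [h0]), h2⟩
  | succ d ih =>
    intro X Y H A B h n ok hg
    obtain ⟨eH, dH⟩ := half_of_dvd ok.dH
    obtain ⟨eh, dh⟩ := half_of_dvd ok.dh
    obtain ⟨pH, ph, X0, Y0, A0, B0, X1, Y1⟩ := ok
    rw [go_succ] at hg
    unfold nd at hg
    suffices hh : n / 32 ≠ 0 ∧ Cov X Y H A B h from ⟨fun h0 => hh.1 (by rw [h0]), hh.2⟩
    generalize n / 32 = n0 at hg ⊢
    cases h14 : Nat.ble 30 (n % 32) with
    | false =>
      rw [h14] at hg
      exact lfn_sound hl (by omega) (by omega) (by omega) hg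
    | true =>
      rw [h14] at hg
      cases h15 : Nat.ble 31 (n % 32) with
      | false =>
        rw [h15] at hg
        have hg' : spe (go lf d) X Y ((H + 1) / 2) A B h n0 ≠ 0 := hg
        clear hg
        unfold spe at hg'
        simp only [Nat.add_eq, Nat.sub_eq] at hg'
        set K := (H + 1) / 2 with hK
        clear_value K
        have dh' : 2 ^ d ∣ h := (pow_dvd_pow 2 (Nat.le_succ d)).trans ph
        obtain ⟨m4, c4⟩ := ih (X := X + K) (Y := Y + K) (H := K) (A := A) (B := B) (h := h)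
          ⟨dH, dh', by omega, by omega, A0, B0, by omega, by omega⟩ hg'
        obtain ⟨m3, c3⟩ := ih (X := X + K) (Y := Y - K) (H := K) (A := A) (B := B) (h := h)
          ⟨dH, dh', by omega, by omega, A0, B0, by omega, by omega⟩ m4
        obtain ⟨m2, c2⟩ := ih (X := X - K) (Y := Y + K) (H := K) (A := A) (B := B) (h := h)
          ⟨dH, dh', by omega, by omega, A0, B0, by omega, by omega⟩ m3
        obtain ⟨m1, c1⟩ := ih (X := X - K) (Y := Y - K) (H := K) (A := A) (B := B) (h := h)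
          ⟨dH, dh', by omega, by omega, A0, B0, by omega, by omega⟩ m2
        refine ⟨m1, ?_⟩
        rw [eH]
        exact Cov.e (by omega) (by omega) c1 c2 c3 c4
      | true =>
        rw [h15] at hg
        have hg' : spw (go lf d) X Y H A B ((h + 1) / 2) n0 ≠ 0 := hg
        clear hg
        unfold spw at hg'
        simp only [Nat.add_eq, Nat.sub_eq] at hg'
        set K := (h + 1) / 2 with hK
        clear_value K
        have dH' : 2 ^ d ∣ H := (pow_dvd_pow 2 (Nat.le_succ d)).trans pH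
        obtain ⟨m4, c4⟩ := ih (X := X) (Y := Y) (H := H) (A := A + K) (B := B + K) (h := K)
          ⟨dH', dh, X0, Y0, by omega, by omega, X1, Y1⟩ hg'
        obtain ⟨m3, c3⟩ := ih (X := X) (Y := Y) (H := H) (A := A + K) (B := B - K) (h := K)
          ⟨dH', dh, X0, Y0, by omega, by omega, X1, Y1⟩ m4
        obtain ⟨m2, c2⟩ := ih (X := X) (Y := Y) (H := H) (A := A - K) (B := B + K) (h := K)
          ⟨dH', dh, X0, Y0, by omega, by omega, X1, Y1⟩ m3
        obtain ⟨m1, c1⟩ := ih (X := X) (Y := Y) (H := H) (A := A - K) (B := B - K) (h := K)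
          ⟨dH', dh, X0, Y0, by omega, by omega, X1, Y1⟩ m2
        refine ⟨m1, ?_⟩
        rw [eh]
        exact Cov.w (by omega) (by omega) c1 c2 c3 c4

lemma Cov.tree (hl : LfV lf) (d : ℕ) {X Y H A B h n : ℕ} (hb : okb d X Y H A B h = true)
    (hg : Nat.ble 1 (go lf d X Y H A B h n) = true) : Cov X Y H A B h :=
  (go_sound hl d (okb_sound hb) (Nat.one_le_iff_ne_zero.1 (Nat.le_of_ble_eq_true hg))).2

end

/-- the traps on the squares of the parameter -/
def TrS0 (T0 : ℕ → ℕ → ℕ → ℕ → ℕ → ℕ → Bool) : Prop := ∀ (ε : ℂ) (X Y H : ℕ), Pr ε →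
  X ≤ 4194304 → Y ≤ 4194304 → H ≤ 4194304 → BxE X Y H (16777216 * ε ^ 2) → TrV0 ε (T0 X Y H)
def TrS3 (T3 : ℕ → ℕ → ℕ → ℕ → ℕ → ℕ → Bool) : Prop := ∀ (ε : ℂ) (X Y H : ℕ), Pr ε →
  X ≤ 4194304 → Y ≤ 4194304 → H ≤ 4194304 → BxE X Y H (16777216 * ε ^ 2) → TrV3 ε (T3 X Y H)

theorem lf1_sound {T0 T3 : ℕ → ℕ → ℕ → ℕ → ℕ → ℕ → Bool} (h0 : TrS0 T0) (h3 : TrS3 T3) {tb : Tab}
    (htb : ∀ ε, Pr ε → TV (TQ ε (202 / 100) 562 (1 / 64)) tb) : LfV (lf1 tb T0 T3) := by
  intro T n X Y H A B h hX hY hH hl ε w hE hW hp _ _ a ha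
  unfold lf1 lf2 at hl
  simp only [Nat.add_eq, Nat.mul_eq, ndiv_eq] at hl
  have ht : H * 1449 / 1024 + 1 ≤ 16777216 := by omega
  have hc : Ctx ε X Y (H * 1449 / 1024 + 1) ((H * 1449 / 1024 + 1) / 32768 + 37) := by
    refine ⟨hX, hY, ht, ?_, ?_⟩
    · have := div_lower (H * 1449 / 1024 + 1) 32768 (by norm_num)
      generalize H * 1449 / 1024 + 1 = t at this ⊢
      push_cast
      have ht0 : (0:ℝ) ≤ t := Nat.cast_nonneg _
      linarith
    · apply box_norm
      · rw [Complex.sub_re]; exact hE.1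
      · rw [Complex.sub_im]; exact hE.2
  have hw : InB A B (h * 1449 / 1024 + 1) (16777216 * w) := by
    unfold InB
    apply box_norm
    · rw [Complex.sub_re]; exact hW.1
    · rw [Complex.sub_im]; exact hW.2
  exact tst2_sound hp hc (h0 ε X Y H hp hX hY hH hE) (h3 ε X Y H hp hX hY hH hE) (htb ε hp) hw ha hl

end Pool.Agent.W_4481e3_h66.Ev
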