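import Pool.Agent.W_4481e3_h66.SndTree
import Pool.Agent.W_4481e3_h58.RdrSnd

/-!
The table of the tests and the leaves of the flat regime.
-/

namespace Pool.Agent.W_4481e3_h66.Ev

open Pool.Agent.W_4481e3_h58.Hdr (tp0 tp3 tp0_sound tp3_sound)
open Pool.Agent.W_4481e3_q12.Ev (BxE)
open Pool.Agent.W_MP_4481e3_an.Ev (InB pt)

def q0 : Pth := Pth.pos 11226149 57378078 (Pth.neg 1753697 70967623 (Pth.neg 16410594 38587597 (Pth.pos 15326749
    43956305 (Pth.pos 11226149 57378078 (Pth.neg 1753697 70967623 (Pth.neg 16410594 38587597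
    (Pth.pos 15326749 43956305 (Pth.pos 11226149 57378078 (Pth.neg 1753697 70967623 (Pth.neg
    16410594 38587597 (Pth.pos 15326749 43956305 (Pth.fin 2))))))))))))

def q1 : Pth := Pth.pos 10958422 76324413 (Pth.neg 2461729 147731843 (Pth.neg 16054795 42527484 (Pth.pos
    13949745 56617150 (Pth.pos 6420363 98758300 (Pth.neg 11863283 122104291 (Pth.neg 0 503316480
    (Pth.neg 16777216 33444150 (Pth.fin 0))))))))

def q2 : Pth := Pth.pos 11266890 85872861 (Pth.neg 1644455 206483045 (Pth.neg 16454846 42192650 (Pth.pos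
    15500126 57764130 (Pth.pos 11863283 122104291 (Pth.pos 0 503316480 (Pth.neg 16777216 33444150
    (Pth.fin 0)))))))

def q3 : Pth := Pth.pos 10643353 73031379 (Pth.neg 3273072 125985369 (Pth.neg 15500126 57764130 (Pth.pos
    11863283 122104291 (Pth.pos 0 503316480 (Pth.neg 16777216 33444150 (Pth.fin 0))))))

def q4 : Pth := Pth.pos 11061987 78473806 (Pth.neg 2189866 160775954 (Pth.neg 16205546 39780131 (Pth.pos
    14529495 47276429 (Pth.pos 8388608 64463092 (Pth.fin 1)))))

def q5 : Pth := Pth.pos 11863283 122104291 (Pth.pos 0 503316480 (Pth.neg 16777216 33444150 (Pth.fin 0)))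

def q6 : Pth := Pth.pos 11568571 108985567 (Pth.neg 823219 376299906 (Pth.neg 16696429 37630576 (Pth.pos
    16454846 42192650 (Pth.pos 15500126 57764130 (Pth.pos 11863283 122104291 (Pth.pos 0 503316480
    (Pth.neg 16777216 33444150 (Pth.fin 0))))))))

def q7 : Pth := Pth.pos 11164812 81564651 (Pth.neg 1917417 179529658 (Pth.neg 16338944 39548833 (Pth.pos
    15047028 47159249 (Pth.pos 10213322 67968812 (Pth.neg 4342263 97105848 (Pth.neg 14529495
    47276429 (Pth.pos 8388608 64463092 (Pth.fin 1))))))))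

def q8 : Pth := Pth.pos 10213322 67968812 (Pth.neg 4342263 97105848 (Pth.neg 14529495 47276429 (Pth.pos 8388608
    64463092 (Pth.fin 1))))

def q9 : Pth := Pth.pos 11468776 97871367 (Pth.neg 1097282 289552444 (Pth.neg 16633685 37011230 (Pth.pos
    16205546 39780131 (Pth.pos 14529495 47276429 (Pth.pos 8388608 64463092 (Pth.fin 1))))))

def q10 : Pth := Pth.pos 10429734 69550101 (Pth.neg 3809708 107079984 (Pth.neg 15047028 47159249 (Pth.pos
    10213322 67968812 (Pth.neg 4342263 97105848 (Pth.neg 14529495 47276429 (Pth.pos 8388608 64463092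
    (Pth.fin 1)))))))

def q11 : Pth := Pth.pos 11368213 90651338 (Pth.neg 1371052 238401679 (Pth.neg 16553128 38097850 (Pth.pos
    15886851 43121268 (Pth.pos 13310260 57856681 (Pth.pos 4342263 97105848 (Pth.neg 14529495
    47276429 (Pth.pos 8388608 64463092 (Pth.fin 1))))))))

def q12 : Pth := Pth.pos 11667591 123229403 (Pth.neg 548935 503316480 (Pth.neg 16741295 36034811 (Pth.pos
    16633685 37011230 (Pth.pos 16205546 39780131 (Pth.pos 14529495 47276429 (Pth.pos 8388608
    64463092 (Pth.fin 1)))))))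

def q13 : Pth := Pth.pos 10104087 67714354 (Pth.neg 4606833 94355412 (Pth.neg 14247248 50205179 (Pth.pos 7420373
    73814652 (Pth.neg 10213322 67968812 (Pth.neg 4342263 97105848 (Pth.neg 14529495 47276429
    (Pth.pos 8388608 64463092 (Pth.fin 1))))))))

def q14 : Pth := Pth.pos 10749098 73166834 (Pth.neg 3003405 128583464 (Pth.neg 15701896 47084217 (Pth.pos
    12613779 72659912 (Pth.pos 2189866 160775954 (Pth.neg 16205546 39780131 (Pth.pos 14529495
    47276429 (Pth.pos 8388608 64463092 (Pth.fin 1))))))))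

def q15 : Pth := Pth.pos 11959941 121559489 (Pth.pos 274504 503316480 (Pth.neg 16768233 35700623 (Pth.pos
    16741295 36034811 (Pth.pos 16633685 37011230 (Pth.pos 16205546 39780131 (Pth.pos 14529495
    47276429 (Pth.pos 8388608 64463092 (Pth.fin 1))))))))

def q16 : Pth := Pth.pos 11765831 122660827 (Pth.neg 274504 503316480 (Pth.neg 16768233 35700623 (Pth.pos
    16741295 36034811 (Pth.pos 16633685 37011230 (Pth.pos 16205546 39780131 (Pth.pos 14529495
    47276429 (Pth.pos 8388608 64463092 (Pth.fin 1))))))))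

def q17 : Pth := Pth.pos 11113493 79982057 (Pth.neg 2053710 169817782 (Pth.neg 16274424 40078338 (Pth.pos
    14796184 48725144 (Pth.pos 9320922 72376263 (Pth.neg 6420363 98758300 (Pth.neg 11863283
    122104291 (Pth.pos 0 503316480 (Pth.neg 16777216 33444150 (Pth.fin 0)))))))))

def q18 : Pth := Pth.pos 11215945 83488279 (Pth.neg 1780996 191453250 (Pth.neg 16399091 40026943 (Pth.pos
    15281759 49216937 (Pth.pos 11061987 78473806 (Pth.neg 2189866 160775954 (Pth.neg 16205546
    39780131 (Pth.pos 14529495 47276429 (Pth.pos 8388608 64463092 (Pth.fin 1)))))))))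

def q19 : Pth := Pth.pos 10696315 73038967 (Pth.neg 3138344 127010218 (Pth.neg 15603100 52066582 (Pth.pos
    12245087 94308494 (Pth.pos 1097282 289552444 (Pth.neg 16633685 37011230 (Pth.pos 16205546
    39780131 (Pth.pos 14529495 47276429 (Pth.pos 8388608 64463092 (Pth.fin 1)))))))))

def q20 : Pth := Pth.pos 11190402 82496647 (Pth.neg 1849222 185275009 (Pth.neg 16369565 39781463 (Pth.pos
    15166424 48162374 (Pth.pos 10643353 73031379 (Pth.neg 3273072 125985369 (Pth.neg 15500126
    57764130 (Pth.pos 11863283 122104291 (Pth.pos 0 503316480 (Pth.neg 16777216 33444150 (Pth.fin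
    0))))))))))

def q21 : Pth := Pth.pos 11241441 84640578 (Pth.neg 1712739 198663245 (Pth.neg 16427518 41060560 (Pth.pos
    15393003 53229560 (Pth.pos 11468776 97871367 (Pth.neg 1097282 289552444 (Pth.neg 16633685
    37011230 (Pth.pos 16205546 39780131 (Pth.pos 14529495 47276429 (Pth.pos 8388608 64463092
    (Pth.fin 1))))))))))

def q22 : Pth := Pth.pos 9994176 67960718 (Pth.neg 4870169 93532893 (Pth.neg 13949745 56617150 (Pth.pos 6420363
    98758300 (Pth.neg 11863283 122104291 (Pth.neg 0 503316480 (Pth.neg 16777216 33444150 (Pth.fin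
    0)))))))

/-- the table -/
def tbF : Tab :=
    Tab.cons 0 q0 (Tab.cons 168764 q1 (Tab.cons 18930 q2 (Tab.cons 497772 q3 (Tab.cons 91066 q4
    (Tab.cons 609806 q5 (Tab.cons 242432 q6 (Tab.cons 29354 q7 (Tab.cons 1160250 q8 (Tab.cons 151946
    q9 (Tab.cons 797039 q10 (Tab.cons 77445 q11 (Tab.cons 348904 q12 (Tab.cons 1365834 q13 (Tab.cons
    372117 q14 (Tab.cons 764235 q15 (Tab.cons 471362 q16 (Tab.cons 58212 q17 (Tab.cons 4493 q18
    (Tab.cons 432946 q19 (Tab.cons 16424 q20 (Tab.cons 6799 q21 (Tab.cons 1587403 q22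
    (Tab.nil)))))))))))))))))))))))

lemma tb_chk : tck (Tab.cons 168764 q1 (Tab.cons 18930 q2 (Tab.cons 497772 q3 (Tab.cons 91066 q4 (Tab.cons 609806 q5
    (Tab.cons 242432 q6 (Tab.cons 29354 q7 (Tab.cons 1160250 q8 (Tab.cons 151946 q9 (Tab.cons 797039
    q10 (Tab.cons 77445 q11 (Tab.cons 348904 q12 (Tab.cons 1365834 q13 (Tab.cons 372117 q14
    (Tab.cons 764235 q15 (Tab.cons 471362 q16 (Tab.cons 58212 q17 (Tab.cons 4493 q18 (Tab.cons
    432946 q19 (Tab.cons 16424 q20 (Tab.cons 6799 q21 (Tab.cons 1587403 q22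
    (Tab.nil)))))))))))))))))))))))
    [(35, 256), (17, 128), (9, 64), (13, 96), (1, 8), (33, 256), (103, 768), (7, 48), (25, 192),
    (55, 384), (101, 768), (49, 384), (113, 768), (107, 768), (95, 768), (97, 768), (69, 512), (205,
    1536), (215, 1536), (137, 1024), (409, 3072), (19, 128)] = true := by decide +kernel

theorem tbF_ok (ε : ℂ) (hp : Pr ε) : TV (TQ ε (202 / 100) 562 (1 / 64)) tbF :=
  ⟨pcen_valid hp 562 (1 / 64) (202 / 100) (by norm_num) 0, tck_sound hp _ _ tb_chk⟩

noncomputable def t0F (X Y H A B R : ℕ) : Bool := tp0 X H Y H A B R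
noncomputable def t3F (X Y H A B R : ℕ) : Bool := tp3 X H Y H A B R

lemma t0F_ok : TrS0 t0F := by
  intro ε X Y H hp _ _ _ hE n A B R W hW h
  have := tp0_sound X H Y H A B R h ε hp.adm hE.1 hE.2 n (W / 16777216)
  apply this
  have e : 16777216 * (W / 16777216) = W := by field_simp
  rw [e]; exact hW

lemma t3F_ok : TrS3 t3F := by
  intro ε X Y H hp _ _ _ hE x q A B R W hx hq hW h
  have := tp3_sound X H Y H A B R h ε hp.adm hE.1 hE.2 x q hx hq (W / 16777216)
  apply this
  have e : 16777216 * (W / 16777216) = W := by field_simp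
  rw [e]; exact hW

/-- the leaves -/
noncomputable def lfF : ℕ → ℕ → ℕ → ℕ → ℕ → ℕ → ℕ → ℕ → Bool := lf1 tbF t0F t3F

theorem lfF_ok : LfV lfF := lf1_sound t0F_ok t3F_ok tbF_ok

end Pool.Agent.W_4481e3_h66.Ev
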