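import Pool.Agent.W_4481e3_h66.SndF
import Pool.Agent.W_4481e3_q12.Contr

/-!
Checks of the test table.
-/

open Filter Topology

namespace Pool.Agent.W_4481e3_h66.Ev

open Complex
open Pool.Agent.W_MP_4481e3_an.Ev (cosChk cosChk_sound)
open Pool.Agent.W_4481e3_q42 (Alive Adm Dead orb)
open Pool.Agent.W_4481e3_q12 (Good zz zz_add)
open Pool.Agent.W_4481e3_q12.Ev (cph cph_add)

/-- threshold at the head of a path -/
def th0 : Pth → ℕ
  | Pth.fin K => if K = 0 then 29030000 else 57283000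
  | Pth.pos _ TH _ => TH
  | Pth.neg _ TH _ => TH

/-- check of the threshold `TH` with the next path `p` -/
def thk (C TH : ℕ) (p : Pth) : Bool :=
  Nat.ble 503316480 TH || (Nat.ble 1 C && Nat.ble 281474976710656 (2 * (C - 1) * TH) &&
    Nat.ble (281474976710656 * (4 * (TH + th0 p) + C + 1)) (4 * (C - 1) * TH ^ 2))

/-- check of a path over the base `a / b` -/
def pck : Pth → ℕ → ℕ → Bool
  | Pth.fin K, a, b => Nat.ble 1 b && ((Nat.beq K 0 && Nat.beq (a % b) 0) ||
      (Nat.beq K 1 && Nat.beq (3 * a % b) 0 && !(Nat.beq (3 * a / b % 3) 0)))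
  | Pth.pos C TH p, a, b => Nat.ble 1 b && Nat.ble C 16777216 &&
      cosChk (a % b) b (16777216 - C) && thk C TH p && pck p (2 * a) b
  | Pth.neg C TH p, a, b => Nat.ble 1 b && Nat.ble C 16777216 &&
      cosChk (a % b) b (16777216 + C) && thk C TH p && pck p (2 * a) b

lemma cos_mod {a b : ℕ} (hb : 1 ≤ b) :
    Real.cos (2 * Real.pi * ((a:ℝ) / b)) = Real.cos (2 * Real.pi * (((a % b : ℕ) : ℝ) / b)) := by
  have hb0 : (b:ℝ) ≠ 0 := by positivity
  have h1 : (b:ℝ) * ((a / b : ℕ) : ℝ) + ((a % b : ℕ) : ℝ) = a := by exact_mod_cast Nat.div_add_mod a b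
  have h2 : 2 * Real.pi * ((a:ℝ) / b) = 2 * Real.pi * (((a % b : ℕ) : ℝ) / b) +
      ((a / b : ℕ) : ℝ) * (2 * Real.pi) := by
    have h3 : (a:ℝ) / b = ((a % b : ℕ) : ℝ) / b + ((a / b : ℕ) : ℝ) := by
      rw [div_add' _ _ _ hb0, div_left_inj' hb0]; linarith
    rw [h3]; ring
  rw [h2, Real.cos_add_nat_mul_two_pi]

/-- threshold step -/
lemma thr_step {ε : ℂ} (hq : ‖ε ^ 2‖ ≤ 1 / 4) {x T T' : ℝ} (hT : 0 ≤ T)
    (h1 : 1 ≤ 2 * |Real.cos (2 * Real.pi * x)| * T)
    (h2 : T' ≤ |Real.cos (2 * Real.pi * x)| * T ^ 2 - T - |Real.cos (2 * Real.pi * x)| / 4)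
    (h : ∀ Z : ℂ, T' < ‖Z‖ → ¬ Alive ε (2 * x) Z) : ∀ Z : ℂ, T < ‖Z‖ → ¬ Alive ε x Z := by
  intro Z hZ hA
  refine h _ ?_ hA.next
  have h3 := Pool.Agent.W_4481e3_q12.low (Real.cos (2 * Real.pi * x)) (w := Z) hq
  set c := |Real.cos (2 * Real.pi * x)| with hc
  have hc0 : 0 < c := by
    rcases eq_or_lt_of_le (abs_nonneg (Real.cos (2 * Real.pi * x))) with h0 | h0
    · rw [hc, ← h0] at h1; norm_num at h1
    · exact h0
  have h4 : 0 < (‖Z‖ - T) * (c * (‖Z‖ + T) - 1) := by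
    apply mul_pos (by linarith)
    nlinarith
  unfold Pool.Agent.W_4481e3_q42.stp
  nlinarith

lemma thk_sound {ε : ℂ} (hp : Pr ε) {C TH : ℕ} {p : Pth} {x : ℝ} (h : thk C TH p = true)
    (hc : |16777216 * |Real.cos (2 * Real.pi * x)| - C| ≤ 1) (hn : Thr ε (th0 p) (2 * x)) :
    Thr ε TH x := by
  unfold thk at h
  rw [Bool.or_eq_true] at h
  rcases h with h | h
  · have h1 := Nat.le_of_ble_eq_true h
    intro Z hZ hA
    have h2 := hA.bd 0
    simp only [orb] at h2
    have h3 : (503316480:ℝ) ≤ TH := by exact_mod_cast h1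
    linarith
  · rw [Bool.and_eq_true, Bool.and_eq_true] at h
    obtain ⟨⟨h0, h1⟩, h2⟩ := h
    have h0 := Nat.le_of_ble_eq_true h0
    have h1 := Nat.le_of_ble_eq_true h1
    have h2 := Nat.le_of_ble_eq_true h2
    have e0 : ((C - 1 : ℕ) : ℝ) = C - 1 := by rw [Nat.cast_sub h0]; push_cast; ring
    have h1' : (281474976710656:ℝ) ≤ 2 * ((C:ℝ) - 1) * TH := by
      rw [← e0]; exact_mod_cast h1
    have h2' : (281474976710656:ℝ) * (4 * (TH + th0 p) + C + 1) ≤ 4 * ((C:ℝ) - 1) * TH ^ 2 := by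
      rw [← e0]; exact_mod_cast h2
    set c := |Real.cos (2 * Real.pi * x)| with hcd
    have hc' := abs_le.1 hc
    have hTH : (0:ℝ) ≤ TH := Nat.cast_nonneg _
    have hC1 : (1:ℝ) ≤ C := by exact_mod_cast h0
    have key := thr_step (x := x) (T := TH / 16777216) (T' := (th0 p : ℕ) / 16777216) hp.q4
      (by positivity) (by
        rw [← hcd]
        have : 2 * ((C:ℝ) - 1) * TH ≤ 2 * (16777216 * c) * TH := by
          apply mul_le_mul_of_nonneg_right _ hTH; linarith
        have e1 : 2 * c * (TH / 16777216) = 2 * (16777216 * c) * TH / 281474976710656 := by ring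
        rw [e1, le_div_iff₀ (by norm_num)]; linarith) (by
        rw [← hcd]
        have e2 : c * ((TH:ℝ) / 16777216) ^ 2 - TH / 16777216 - c / 4 =
          (4 * (16777216 * c) * TH ^ 2 - 281474976710656 * (4 * TH + 16777216 * c)) /
            (4 * 281474976710656 * 16777216) := by
          field_simp
          ring
        rw [e2, le_div_iff₀ (by norm_num)]
        have h5 : 4 * ((C:ℝ) - 1) * TH ^ 2 ≤ 4 * (16777216 * c) * TH ^ 2 := by
          apply mul_le_mul_of_nonneg_right _ (by positivity); linarith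
        have h6 : ((th0 p : ℕ):ℝ) / 16777216 * (4 * 281474976710656 * 16777216) =
          281474976710656 * (4 * (th0 p : ℕ)) := by ring
        rw [h6]
        linarith) (fun Z hZ => hn Z (by rw [div_lt_iff₀ (by norm_num)] at hZ; linarith))
    intro Z hZ
    exact key Z (by rw [div_lt_iff₀ (by norm_num)]; linarith)

lemma thr_int {ε : ℂ} (hp : Pr ε) {n : ℤ} : Thr ε 29030000 n := by
  intro Z hZ
  refine Pool.Agent.W_4481e3_q42.not_alive_esc0 (n := n) rfl (r := 1.2303) ?_ (by norm_num) ?_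
  · have := hp.k0
    norm_num at this ⊢
    linarith
  · have h1 : ‖Z‖ ≤ ‖Z - 1 / 2‖ + 1 / 2 := by
      have e : Z = (Z - 1 / 2) + 1 / 2 := by ring
      calc ‖Z‖ = ‖(Z - 1 / 2) + 1 / 2‖ := by rw [← e]
        _ ≤ _ := by
          refine (norm_add_le _ _).trans ?_
          norm_num
    push_cast at hZ
    norm_num at hZ ⊢
    linarith

lemma thr_third {ε : ℂ} (hp : Pr ε) {x : ℝ} {q : ℤ} (hx : 3 * x = q) (hq : ¬ (3 ∣ q)) :
    Thr ε 57283000 x := by
  intro Z hZ
  refine Pool.Agent.W_4481e3_q42.not_alive_esc3 hx hq (r := 1.20715) ?_ (by norm_num) ?_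
  · have := hp.k3
    norm_num at this ⊢
    linarith
  · have h1 : ‖Z‖ ≤ ‖Z + 1‖ + 1 := by
      have e : Z = (Z + 1) - 1 := by ring
      calc ‖Z‖ = ‖(Z + 1) - 1‖ := by rw [← e]
        _ ≤ _ := by
          refine (norm_sub_le _ _).trans ?_
          norm_num
    push_cast at hZ
    norm_num at hZ ⊢
    linarith

theorem pck_sound {ε : ℂ} (hp : Pr ε) (p : Pth) : ∀ (a b : ℕ), pck p a b = true →
    PV ε p ((a:ℝ) / b) ∧ Thr ε (th0 p) ((a:ℝ) / b) := by
  induction p with
  | fin K =>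
    intro a b h
    unfold pck at h
    rw [Bool.and_eq_true, Bool.or_eq_true, Bool.and_eq_true, Bool.and_eq_true, Bool.and_eq_true] at h
    obtain ⟨hb, h⟩ := h
    have hb := Nat.le_of_ble_eq_true hb
    have hb0 : (b:ℝ) ≠ 0 := by positivity
    rcases h with ⟨h1, h2⟩ | ⟨⟨h1, h2⟩, h3⟩
    · have h1 := Nat.eq_of_beq_eq_true h1
      have h2 := Nat.eq_of_beq_eq_true h2
      subst h1
      obtain ⟨m, rfl⟩ := Nat.dvd_of_mod_eq_zero h2
      have e : ((b * m : ℕ) : ℝ) / b = ((m:ℤ):ℝ) := by push_cast; field_simp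
      rw [e]
      refine ⟨⟨fun _ => ⟨m, rfl⟩, fun h => absurd h (by norm_num)⟩, ?_⟩
      exact thr_int hp
    · have h1 := Nat.eq_of_beq_eq_true h1
      have h2 := Nat.eq_of_beq_eq_true h2
      subst h1
      obtain ⟨m, hm⟩ := Nat.dvd_of_mod_eq_zero h2
      have e1 : 3 * a / b = m := by rw [hm]; exact Nat.mul_div_cancel_left _ (by omega)
      rw [e1] at h3
      have h4 : ¬ (3 ∣ m) := by
        intro hd
        have := Nat.mod_eq_zero_of_dvd hd
        rw [this] at h3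
        exact absurd h3 (by decide)
      have e : 3 * ((a : ℝ) / b) = ((m:ℤ):ℝ) := by
        have : (3:ℝ) * a = b * m := by exact_mod_cast hm
        push_cast
        field_simp
        linarith
      have h5 : ¬ ((3:ℤ) ∣ (m:ℤ)) := by
        intro hd; exact h4 (by exact_mod_cast hd)
      refine ⟨⟨fun h => absurd h (by norm_num), fun _ => ⟨m, e, h5⟩⟩, ?_⟩
      exact thr_third hp e h5
  | pos C TH p ih =>
    intro a b h
    unfold pck at h
    rw [Bool.and_eq_true, Bool.and_eq_true, Bool.and_eq_true, Bool.and_eq_true] at h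
    obtain ⟨⟨⟨⟨hb, hC⟩, hcos⟩, ht⟩, hn⟩ := h
    have hb := Nat.le_of_ble_eq_true hb
    have hC := Nat.le_of_ble_eq_true hC
    obtain ⟨i1, i2⟩ := ih _ _ hn
    have e2 : ((2 * a : ℕ) : ℝ) / b = 2 * ((a:ℝ) / b) := by push_cast; ring
    rw [e2] at i1 i2
    have h1 := cosChk_sound hcos
    rw [← cos_mod hb, Nat.cast_sub hC] at h1
    push_cast at h1
    set c := Real.cos (2 * Real.pi * ((a:ℝ) / b)) with hc
    have h2 : |16777216 * c - C| ≤ 1 := by
      rw [abs_le] at h1 ⊢; constructor <;> linarith [h1.1, h1.2]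
    have h3 : |16777216 * |c| - C| ≤ 1 := by
      rcases le_total 0 c with h0 | h0
      · rw [abs_of_nonneg h0]; exact h2
      · rw [abs_of_nonpos h0]
        have hC0 : (0:ℝ) ≤ C := Nat.cast_nonneg _
        have h4 := abs_le.1 h2
        rw [abs_le]; constructor <;> linarith [h4.1, h4.2]
    have hT := thk_sound hp ht h3 i2
    exact ⟨⟨hC, h2, hT, i1⟩, hT⟩
  | neg C TH p ih =>
    intro a b h
    unfold pck at h
    rw [Bool.and_eq_true, Bool.and_eq_true, Bool.and_eq_true, Bool.and_eq_true] at h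
    obtain ⟨⟨⟨⟨hb, hC⟩, hcos⟩, ht⟩, hn⟩ := h
    have hb := Nat.le_of_ble_eq_true hb
    have hC := Nat.le_of_ble_eq_true hC
    obtain ⟨i1, i2⟩ := ih _ _ hn
    have e2 : ((2 * a : ℕ) : ℝ) / b = 2 * ((a:ℝ) / b) := by push_cast; ring
    rw [e2] at i1 i2
    have h1 := cosChk_sound hcos
    rw [← cos_mod hb] at h1
    push_cast at h1
    set c := Real.cos (2 * Real.pi * ((a:ℝ) / b)) with hc
    have h2 : |16777216 * c + C| ≤ 1 := by
      rw [abs_le] at h1 ⊢; constructor <;> linarith [h1.1, h1.2]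
    have h3 : |16777216 * |c| - C| ≤ 1 := by
      rcases le_total c 0 with h0 | h0
      · rw [abs_of_nonpos h0]
        have h4 := abs_le.1 h2
        rw [abs_le]; constructor <;> linarith [h4.1, h4.2]
      · rw [abs_of_nonneg h0]
        have hC0 : (0:ℝ) ≤ C := Nat.cast_nonneg _
        have h4 := abs_le.1 h2
        rw [abs_le]; constructor <;> linarith [h4.1, h4.2]
    have hT := thk_sound hp ht h3 i2
    exact ⟨⟨hC, h2, hT, i1⟩, hT⟩

/-- check of an entry of the table: `a / b` is the test point, slopes up to `202/100`, constant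
`562`, window `1/64` -/
def eck (o : ℕ) (p : Pth) (a b : ℕ) : Bool :=
  pck p a b && Nat.ble 1 b &&
    Nat.ble (64 * (15 * a - 2 * b + (2 * b - 15 * a))) (15 * b) &&
    Nat.ble (16777216 * (3030 * (15 * a - 2 * b + (2 * b - 15 * a)) * b +
      28100 * (15 * a - 2 * b + (2 * b - 15 * a)) ^ 2)) (22500 * b ^ 2 * o)

lemma dist_abs (x y : ℕ) : ((x - y + (y - x) : ℕ) : ℝ) = |(x:ℝ) - y| := by
  rcases le_total x y with h | h
  · rw [Nat.sub_eq_zero_of_le h, Nat.zero_add, Nat.cast_sub h, abs_of_nonpos, neg_sub]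
    have : (x:ℝ) ≤ y := by exact_mod_cast h
    linarith
  · rw [Nat.sub_eq_zero_of_le h, Nat.add_zero, Nat.cast_sub h, abs_of_nonneg]
    have : (y:ℝ) ≤ x := by exact_mod_cast h
    linarith

lemma eck_sound {ε : ℂ} (hp : Pr ε) {o : ℕ} {p : Pth} {a b : ℕ} (h : eck o p a b = true) :
    TQ ε (202 / 100) 562 (1 / 64) o p := by
  unfold eck at h
  rw [Bool.and_eq_true, Bool.and_eq_true, Bool.and_eq_true] at h
  obtain ⟨⟨⟨h1, hb⟩, h2⟩, h3⟩ := h
  have hb := Nat.le_of_ble_eq_true hb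
  have h2 := Nat.le_of_ble_eq_true h2
  have h3 := Nat.le_of_ble_eq_true h3
  have hb0 : (0:ℝ) < b := by exact_mod_cast hb
  set D := 15 * a - 2 * b + (2 * b - 15 * a) with hD
  have hDr : (D:ℝ) = |15 * (a:ℝ) - 2 * b| := by
    rw [hD, dist_abs]; push_cast; rfl
  have h2' : 64 * (D:ℝ) ≤ 15 * b := by exact_mod_cast h2
  have h3' : 16777216 * (3030 * (D:ℝ) * b + 28100 * D ^ 2) ≤ 22500 * b ^ 2 * o := by exact_mod_cast h3
  have hs : |(a:ℝ) / b - 2 / 15| = D / (15 * b) := by
    have e : (a:ℝ) / b - 2 / 15 = (15 * a - 2 * b) / (15 * b) := by field_simp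
    rw [e, abs_div, ← hDr, abs_of_pos (by positivity)]
  refine ⟨(a:ℝ) / b - 2 / 15, ?_, ?_, ?_⟩
  · rw [hs, div_le_iff₀ (by positivity)]; linarith
  · rw [← sq_abs, hs]
    have e : 16777216 * (202 / 100 * (D / (15 * b)) + 562 * (D / (15 * b)) ^ 2 / 2) =
      16777216 * (3030 * (D:ℝ) * b + 28100 * D ^ 2) / (22500 * b ^ 2) := by
      field_simp
      ring
    rw [e, div_le_iff₀ (by positivity)]
    linarith
  · have e : (2:ℝ) / 15 + ((a:ℝ) / b - 2 / 15) = a / b := by ring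
    rw [e]
    exact (pck_sound hp p a b h1).1

/-- check of a table against the list of the test points -/
def tck : Tab → List (ℕ × ℕ) → Bool
  | Tab.nil, _ => true
  | Tab.cons _ _ _, [] => false
  | Tab.cons o p t, x :: l => eck o p x.1 x.2 && tck t l

lemma tck_sound {ε : ℂ} (hp : Pr ε) (tb : Tab) : ∀ l, tck tb l = true →
    TV (TQ ε (202 / 100) 562 (1 / 64)) tb := by
  induction tb with
  | nil => intro l _; trivial
  | cons o p t ih =>
    intro l h
    cases l with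
    | nil => exact absurd h (by simp [tck])
    | cons x l =>
      unfold tck at h
      rw [Bool.and_eq_true] at h
      exact ⟨eck_sound hp h.1, ih l h.2⟩

end Pool.Agent.W_4481e3_h66.Ev
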