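import Pool.Agent.W_4481e3_h66.EvF

/-!
Flat regime: the tree.
-/

namespace Pool.Agent.W_4481e3_h66.Ev

open Pool.Agent.W_MP_4481e3_an.Ev (gd)
open Pool.Agent.W_4481e3_q12.Ev (ds out)

/-- small parameter and small point -/
noncomputable def crn (X Y H A B h : ℕ) : Bool :=
  gd (Nat.ble (Nat.add (Nat.mul (Nat.add X H) (Nat.add X H)) (Nat.mul (Nat.add Y H) (Nat.add Y H)))
    268435456)
    (Nat.ble (Nat.add (Nat.mul (Nat.add (ds A 536870912) h) (Nat.add (ds A 536870912) h))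
      (Nat.mul (Nat.add (ds B 536870912) h) (Nat.add (ds B 536870912) h))) 638265177225)

/-- leaf with the digits `m`, then a digit in base `128` -/
noncomputable def lfn (lf : ℕ → ℕ → ℕ → ℕ → ℕ → ℕ → ℕ → ℕ → Bool) (m X Y H A B h n : ℕ) : ℕ :=
  Bool.rec (Bool.rec 0 (Nat.div n 128) (lf m (Nat.mod n 128) X Y H A B h))
    (Bool.rec (Bool.rec 0 n (out X Y H)) (Bool.rec 0 n (crn X Y H A B h)) (Nat.ble 29 m))
    (Nat.ble 28 m)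

noncomputable def spe (go : ℕ → ℕ → ℕ → ℕ → ℕ → ℕ → ℕ → ℕ) (X Y H A B h n : ℕ) : ℕ :=
  go (Nat.add X H) (Nat.add Y H) H A B h (go (Nat.add X H) (Nat.sub Y H) H A B h
    (go (Nat.sub X H) (Nat.add Y H) H A B h (go (Nat.sub X H) (Nat.sub Y H) H A B h n)))

noncomputable def spw (go : ℕ → ℕ → ℕ → ℕ → ℕ → ℕ → ℕ → ℕ) (X Y H A B h n : ℕ) : ℕ :=
  go X Y H (Nat.add A h) (Nat.add B h) h (go X Y H (Nat.add A h) (Nat.sub B h) h
    (go X Y H (Nat.sub A h) (Nat.add B h) h (go X Y H (Nat.sub A h) (Nat.sub B h) h n)))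

noncomputable def nd (lf : ℕ → ℕ → ℕ → ℕ → ℕ → ℕ → ℕ → ℕ → Bool)
    (go : ℕ → ℕ → ℕ → ℕ → ℕ → ℕ → ℕ → ℕ) (m X Y H A B h n : ℕ) : ℕ :=
  Bool.rec (lfn lf m X Y H A B h n)
    (Bool.rec (spe go X Y (Nat.div (Nat.add H 1) 2) A B h n)
      (spw go X Y H A B (Nat.div (Nat.add h 1) 2) n) (Nat.ble 31 m)) (Nat.ble 30 m)

/-- the tree -/
noncomputable def go (lf : ℕ → ℕ → ℕ → ℕ → ℕ → ℕ → ℕ → ℕ → Bool) (d : ℕ) :
    ℕ → ℕ → ℕ → ℕ → ℕ → ℕ → ℕ → ℕ :=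
  Nat.rec (fun X Y H A B h n => lfn lf (Nat.mod n 32) X Y H A B h (Nat.div n 32))
    (fun _ ih X Y H A B h n => nd lf ih (Nat.mod n 32) X Y H A B h (Nat.div n 32)) d

noncomputable def lf2 (tb : Tab) (T0 T3 : ℕ → ℕ → ℕ → Bool) (T n X Y t A B r : ℕ) : Bool :=
  tst2 tb T0 T3 T n X Y t (Nat.add (Nat.div t 32768) 37) A B r

/-- the leaves -/
noncomputable def lf1 (tb : Tab) (T0 T3 : ℕ → ℕ → ℕ → ℕ → ℕ → ℕ → Bool)
    (T n X Y H A B h : ℕ) : Bool :=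
  lf2 tb (T0 X Y H) (T3 X Y H) T n X Y (Nat.add (Nat.div (Nat.mul H 1449) 1024) 1) A B
    (Nat.add (Nat.div (Nat.mul h 1449) 1024) 1)

end Pool.Agent.W_4481e3_h66.Ev
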